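import Mathlib

set_option autoImplicit false
set_option maxHeartbeats 1000000

namespace Pool.Agent.H843R3.Had3

/-- Leaders: to every sign vector on a finite nonempty set `B` one can attach an element of `B`,
such that every partial sign vector, on a nonempty set `S`, has an extension whose leader
lies in `S`. -/
theorem exists_leader (B : Type) [Finite B] : Nonempty B →
    ∃ f : (B → Bool) → B, ∀ (S : Set B) (y : B → Bool), S.Nonempty →
      ∃ ε : B → Bool, (∀ i ∈ S, ε i = y i) ∧ f ε ∈ S := by
  classical
  induction B using Finite.induction_empty_option with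
  | of_equiv e h =>
    rename_i α β
    intro hne
    obtain ⟨f, hf⟩ := h (hne.map e.symm)
    refine ⟨fun ε => e (f (ε ∘ e)), fun S y hS => ?_⟩
    obtain ⟨ε, h1, h2⟩ := hf (e ⁻¹' S) (y ∘ e) (by
      obtain ⟨s, hs⟩ := hS
      exact ⟨e.symm s, by simpa using hs⟩)
    refine ⟨ε ∘ e.symm, fun i hi => ?_, ?_⟩
    · have := h1 (e.symm i) (by simpa using hi)
      simpa using this
    · have h3 : (ε ∘ e.symm) ∘ e = ε := by
        ext i
        simp
      show e (f ((ε ∘ e.symm) ∘ e)) ∈ S
      rw [h3]
      exact h2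
  | h_empty =>
    rintro ⟨x⟩
    exact x.elim
  | h_option h =>
    rename_i α _
    intro _
    rcases isEmpty_or_nonempty α with hα | hα
    · refine ⟨fun _ => none, fun S y hS => ⟨y, fun _ _ => rfl, ?_⟩⟩
      obtain ⟨s, hs⟩ := hS
      cases s with
      | none => exact hs
      | some a => exact (hα.false a).elim
    · obtain ⟨f, hf⟩ := h hα
      have hab : (fun _ : α => true) ≠ (fun _ => false) := by
        intro hcon
        obtain ⟨a⟩ := hα
        have := congrFun hcon a
        simp at this
      obtain ⟨G, hG1, hG2⟩ : ∃ G : (Option α → Bool) → Option α,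
          (∀ ε, (fun a => ε (some a)) = (fun _ => ε none) → G ε = none) ∧
          (∀ ε, (fun a => ε (some a)) ≠ (fun _ => ε none) →
            G ε = some (f (fun a => ε (some a)))) :=
        ⟨fun ε => if (fun a => ε (some a)) = (fun _ => ε none) then none
          else some (f (fun a => ε (some a))), fun ε h => if_pos h, fun ε h => if_neg h⟩
      refine ⟨G, fun S y hS => ?_⟩
      by_cases hS' : ∃ a, some a ∈ S
      · obtain ⟨ε', h1, h2⟩ := hf {a | some a ∈ S} (fun a => y (some a)) hS'
        by_cases hn : (none : Option α) ∈ S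
        · refine ⟨fun i => i.elim (y none) ε', ?_, ?_⟩
          · intro i hi
            cases i with
            | none => rfl
            | some a => exact h1 a hi
          · by_cases hc : ε' = fun _ => y none
            · rw [hG1 _ hc]
              exact hn
            · rw [hG2 _ hc]
              exact h2
        · obtain ⟨σ, hσ⟩ : ∃ σ : Bool, ε' ≠ fun _ => σ := by
            by_contra hcon
            push Not at hcon
            exact hab ((hcon true).symm.trans (hcon false))
          refine ⟨fun i => i.elim σ ε', ?_, ?_⟩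
          · intro i hi
            cases i with
            | none => exact absurd hi hn
            | some a => exact h1 a hi
          · rw [hG2 _ hσ]
            exact h2
      · obtain ⟨s, hs⟩ := hS
        have hn : (none : Option α) ∈ S := by
          cases s with
          | none => exact hs
          | some a => exact absurd ⟨a, hs⟩ hS'
        refine ⟨fun _ => y none, ?_, ?_⟩
        · intro i hi
          cases i with
          | none => rfl
          | some a => exact absurd ⟨a, hi⟩ hS'
        · rw [hG1 _ rfl]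
          exact hn

section ordering

variable {r : ℕ} {A : Fin r → Type} (code : ∀ j, A j → ℤ) (g s : Fin r → ℤ) (N : ℤ)

/-- the hash -/
def hsh (U : Finset (Fin r)) (a : ∀ j, A j) : ℤ := (∑ j ∈ U, code j (a j) * g j) % N

open Classical in
/-- the last block -/
noncomputable def lst [Inhabited (Fin r)] (U : Finset (Fin r)) (a : ∀ j, A j) : Fin r :=
  if h : ∃ j ∈ U, s j ≤ hsh code g N U a ∧ hsh code g N U a < s j + g j then h.choose
  else default

theorem lst_congr [Inhabited (Fin r)] {U : Finset (Fin r)} {a a' : ∀ j, A j}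
    (h : ∀ j ∈ U, a j = a' j) : lst code g s N U a = lst code g s N U a' := by
  have h1 : hsh code g N U a = hsh code g N U a' := by
    unfold hsh
    rw [Finset.sum_congr rfl fun j hj => by rw [h j hj]]
  unfold lst
  simp only [h1]

theorem lst_spec [Inhabited (Fin r)] (p : Fin r → ℤ) (hg : ∀ j, 0 < g j)
    (hp : ∀ j, p j * g j = N)
    (hs0 : ∀ j, 0 ≤ s j) (hs1 : ∀ j, s j + g j ≤ N)
    (hs2 : ∀ i j, i < j → s i + g i ≤ s j)
    (hcode : ∀ j (q : ℤ), ∃ a : A j, p j ∣ code j a - q)
    (U : Finset (Fin r)) (l : Fin r) (hl : l ∈ U) (a : ∀ j, A j) :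
    ∃ c : A l, lst code g s N U (Function.update a l c) = l := by
  classical
  set C : ℤ := ∑ j ∈ U.erase l, code j (a j) * g j with hC
  -- the quotient
  set q : ℤ := (s l - C + (g l - 1)) / g l with hq
  have hq1 : s l ≤ C + q * g l ∧ C + q * g l < s l + g l := by
    have h1 := Int.emod_add_mul_ediv (s l - C + (g l - 1)) (g l)
    have h2 := Int.emod_nonneg (s l - C + (g l - 1)) (hg l).ne'
    have h3 := Int.emod_lt_of_pos (s l - C + (g l - 1)) (hg l)
    rw [← hq] at h1
    constructor <;> nlinarith
  obtain ⟨c, hc⟩ := hcode l q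
  refine ⟨c, ?_⟩
  have hN : 0 < N := by
    have := hs1 l
    have := hs0 l
    have := hg l
    linarith
  have hh : hsh code g N U (Function.update a l c) = C + q * g l := by
    unfold hsh
    rw [← Finset.add_sum_erase U _ hl]
    have e1 : ∑ j ∈ U.erase l, code j (Function.update a l c j) * g j = C := by
      rw [hC]
      refine Finset.sum_congr rfl fun j hj => ?_
      rw [Function.update_of_ne (Finset.ne_of_mem_erase hj)]
    rw [e1, Function.update_self]
    have h1 : (C + q * g l) % N = C + q * g l :=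
      Int.emod_eq_of_lt ((hs0 l).trans hq1.1) (lt_of_lt_of_le hq1.2 (hs1 l))
    have e2 : (code l c * g l + C) % N = (C + q * g l) % N := by
      obtain ⟨m, hm⟩ := hc
      refine Int.emod_eq_emod_iff_emod_sub_eq_zero.2 ?_
      refine Int.emod_eq_zero_of_dvd ⟨m, ?_⟩
      rw [← hp l]
      have : code l c = q + p l * m := by linarith
      rw [this]
      ring
    rw [e2, h1]
  have hex : ∃ j ∈ U, s j ≤ hsh code g N U (Function.update a l c) ∧
      hsh code g N U (Function.update a l c) < s j + g j := by
    refine ⟨l, hl, ?_⟩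
    rw [hh]
    exact hq1
  unfold lst
  rw [dif_pos hex]
  obtain ⟨_, h1, h2⟩ := hex.choose_spec
  set j := hex.choose
  rw [hh] at h1 h2
  rcases lt_trichotomy j l with h | h | h
  · have := hs2 _ _ h
    linarith [hq1.1]
  · exact h
  · have := hs2 _ _ h
    linarith [hq1.2]

/-- the rank of a block -/
noncomputable def rk [Inhabited (Fin r)] : ℕ → Finset (Fin r) → (∀ j, A j) → Fin r → ℕ
  | 0, _, _, _ => 0
  | (k + 1), U, a, j => if j = lst code g s N U a then k + 1
      else rk k (U.erase (lst code g s N U a)) a j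

theorem rk_le [Inhabited (Fin r)] (k : ℕ) : ∀ (U : Finset (Fin r)) (a : ∀ j, A j) (j : Fin r),
    rk code g s N k U a j ≤ k := by
  induction k with
  | zero => intro U a j; exact le_rfl
  | succ k ih =>
    intro U a j
    rw [rk]
    split_ifs
    · exact le_rfl
    · exact (ih _ _ _).trans (Nat.le_succ k)

theorem rk_congr [Inhabited (Fin r)] (k : ℕ) : ∀ (U : Finset (Fin r)) (a a' : ∀ j, A j)
    (_ : ∀ j ∈ U, a j = a' j) (j : Fin r), rk code g s N k U a j = rk code g s N k U a' j := by
  induction k with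
  | zero => intro U a a' h j; rfl
  | succ k ih =>
    intro U a a' h j
    rw [rk, rk, lst_congr code g s N h]
    split_ifs
    · rfl
    · exact ih _ _ _ (fun i hi => h i (Finset.mem_of_mem_erase hi)) j

theorem rk_spec [Inhabited (Fin r)] (p : Fin r → ℤ) (hg : ∀ j, 0 < g j)
    (hp : ∀ j, p j * g j = N)
    (hs0 : ∀ j, 0 ≤ s j) (hs1 : ∀ j, s j + g j ≤ N)
    (hs2 : ∀ i j, i < j → s i + g i ≤ s j)
    (hcode : ∀ j (q : ℤ), ∃ a : A j, p j ∣ code j a - q) (k : ℕ) :
    ∀ (U : Finset (Fin r)) (_ : U.card = k) (D : Finset (Fin r)) (_ : D ⊆ U) (a : ∀ j, A j),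
      ∃ a' : ∀ j, A j, (∀ j ∉ D, a' j = a j) ∧
        ∀ j ∈ U, j ∉ D → ∀ j' ∈ D, rk code g s N k U a' j < rk code g s N k U a' j' := by
  classical
  induction k with
  | zero =>
    intro U hU D _ a
    rw [Finset.card_eq_zero] at hU
    subst hU
    exact ⟨a, fun _ _ => rfl, fun j hj => absurd hj (Finset.notMem_empty j)⟩
  | succ k ih =>
    intro U hU D hD a
    rcases D.eq_empty_or_nonempty with rfl | ⟨d, hd⟩
    · exact ⟨a, fun _ _ => rfl, fun j _ _ j' hj' => absurd hj' (Finset.notMem_empty j')⟩
    · have hdU := hD hd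
      obtain ⟨a2, h1, h2⟩ := ih (U.erase d) (by rw [Finset.card_erase_of_mem hdU, hU]; rfl)
        (D.erase d) (Finset.erase_subset_erase d hD) a
      obtain ⟨c, hc⟩ := lst_spec code g s N p hg hp hs0 hs1 hs2 hcode U d hdU a2
      refine ⟨Function.update a2 d c, ?_, ?_⟩
      · intro j hj
        have hjd : j ≠ d := by rintro rfl; exact hj hd
        rw [Function.update_of_ne hjd]
        exact h1 j fun h => hj (Finset.mem_of_mem_erase h)
      · intro j hjU hjD j' hj'
        have hjd : j ≠ d := by rintro rfl; exact hjD hd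
        have hcong : ∀ i, rk code g s N k (U.erase d) (Function.update a2 d c) i =
            rk code g s N k (U.erase d) a2 i := by
          intro i
          refine rk_congr code g s N k _ _ _ (fun t ht => ?_) i
          rw [Function.update_of_ne (Finset.ne_of_mem_erase ht)]
        rw [rk, rk, hc, if_neg hjd, hcong]
        split_ifs with h
        · exact Nat.lt_succ_of_le (rk_le code g s N k _ _ _)
        · rw [hcong]
          exact h2 j (Finset.mem_erase.2 ⟨hjd, hjU⟩) (fun h' => hjD (Finset.mem_of_mem_erase h'))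
            j' (Finset.mem_erase.2 ⟨h, hj'⟩)

end ordering

/-- The ordering of the blocks. -/
theorem exists_order {r : ℕ} (A : Fin r → Type) [∀ j, Fintype (A j)] [∀ j, Nonempty (A j)]
    (hA : ∑ j, (1 / (Fintype.card (A j) : ℝ)) ≤ 1) :
    ∃ rank : (∀ j, A j) → Fin r → ℕ, ∀ (D : Finset (Fin r)) (a : ∀ j, A j),
      ∃ a' : ∀ j, A j, (∀ j ∉ D, a' j = a j) ∧ ∀ j ∉ D, ∀ j' ∈ D, rank a' j < rank a' j' := by
  classical
  rcases Nat.eq_zero_or_pos r with rfl | hr
  · exact ⟨fun _ _ => 0, fun D a => ⟨a, fun _ _ => rfl, fun j => j.elim0⟩⟩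
  have : Inhabited (Fin r) := ⟨⟨0, hr⟩⟩
  set p : Fin r → ℤ := fun j => (Fintype.card (A j) : ℤ) with hpdef
  set N : ℤ := ∏ j, p j with hN
  set g : Fin r → ℤ := fun j => ∏ i ∈ Finset.univ.erase j, p i with hgdef
  have hp0 : ∀ j, 0 < p j := fun j => by
    simp only [hpdef]
    exact_mod_cast Fintype.card_pos
  have hg : ∀ j, 0 < g j := fun j => Finset.prod_pos fun i _ => hp0 i
  have hp : ∀ j, p j * g j = N := fun j => Finset.mul_prod_erase _ _ (Finset.mem_univ j)
  set s : Fin r → ℤ := fun j => ∑ i ∈ Finset.Iio j, g i with hsdef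
  have hs0 : ∀ j, 0 ≤ s j := fun j => Finset.sum_nonneg fun i _ => (hg i).le
  have hsum : ∑ j, g j ≤ N := by
    have h1 : (∑ j, (g j : ℝ)) ≤ (N : ℝ) := by
      have hN0 : (0 : ℝ) < N := by
        exact_mod_cast Finset.prod_pos fun j _ => hp0 j
      have h2 : ∀ j, (g j : ℝ) = (N : ℝ) * (1 / (Fintype.card (A j) : ℝ)) := by
        intro j
        have h3 : ((p j : ℝ)) * (g j : ℝ) = N := by exact_mod_cast hp j
        have h4 : (p j : ℝ) = (Fintype.card (A j) : ℝ) := by simp [hpdef]
        have h5 : (0 : ℝ) < (Fintype.card (A j) : ℝ) := by exact_mod_cast Fintype.card_pos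
        rw [h4] at h3
        rw [← h3]
        field_simp
      rw [Finset.sum_congr rfl fun j _ => h2 j, ← Finset.mul_sum]
      nlinarith
    exact_mod_cast h1
  have hIic : ∀ j, s j + g j = ∑ i ∈ Finset.Iic j, g i := by
    intro j
    rw [← Finset.Iio_insert, Finset.sum_insert (by simp), add_comm]
  have hs1 : ∀ j, s j + g j ≤ N := by
    intro j
    rw [hIic]
    exact (Finset.sum_le_sum_of_subset_of_nonneg (Finset.subset_univ _)
      fun i _ _ => (hg i).le).trans hsum
  have hs2 : ∀ i j, i < j → s i + g i ≤ s j := by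
    intro i j hij
    rw [hIic]
    refine Finset.sum_le_sum_of_subset_of_nonneg ?_ fun i _ _ => (hg i).le
    intro k hk
    rw [Finset.mem_Iic] at hk
    rw [Finset.mem_Iio]
    exact lt_of_le_of_lt hk hij
  set code : ∀ j, A j → ℤ := fun j a => ((Fintype.equivFin (A j) a : ℕ) : ℤ) with hcodedef
  have hcode : ∀ j (q : ℤ), ∃ a : A j, p j ∣ code j a - q := by
    intro j q
    have h1 := Int.emod_nonneg q (hp0 j).ne'
    have h2 := Int.emod_lt_of_pos q (hp0 j)
    obtain ⟨m, hm⟩ := Int.eq_ofNat_of_zero_le h1
    have hm2 : m < Fintype.card (A j) := by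
      rw [hm] at h2
      have h3 : ((m : ℕ) : ℤ) < (Fintype.card (A j) : ℤ) := h2
      exact_mod_cast h3
    refine ⟨(Fintype.equivFin (A j)).symm ⟨m, hm2⟩, ?_⟩
    simp only [hcodedef, Equiv.apply_symm_apply]
    rw [show ((m : ℕ) : ℤ) = q % p j from hm.symm]
    refine ⟨-(q / p j), ?_⟩
    have := Int.emod_add_mul_ediv q (p j)
    linarith
  refine ⟨rk code g s N r Finset.univ, fun D a => ?_⟩
  obtain ⟨a', h1, h2⟩ := rk_spec code g s N p hg hp hs0 hs1 hs2 hcode r Finset.univ
    (by rw [Finset.card_univ, Fintype.card_fin]) D (Finset.subset_univ D) a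
  exact ⟨a', h1, fun j hj j' hj' => h2 j (Finset.mem_univ j) hj j' hj'⟩

end Pool.Agent.H843R3.Had3
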