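import Mathlib
import Pool.Agent.H843R3.Had2.Cone
import Pool.Agent.H843R3.Had3.Comb

set_option autoImplicit false
set_option maxHeartbeats 1000000
set_option linter.unusedSectionVars false
set_option linter.unusedVariables false

open Set Topology

namespace Pool.Agent.H843R3.Had3

open Pool.Agent.H843R3.Had2

variable {ι : Type} [Fintype ι] [DecidableEq ι]

theorem neg_of_flip {K : Set (ι → ℝ)}
    (hflip : ∀ x ∈ K, ∀ i, Function.update x i (-x i) ∈ K) : ∀ x ∈ K, -x ∈ K := by
  intro x hx
  have h1 : ∀ s : Finset ι, (fun i => if i ∈ s then -x i else x i) ∈ K := by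
    intro s
    induction s using Finset.induction_on with
    | empty => simpa using hx
    | insert a s ha ih =>
      have h2 := hflip _ ih a
      have h3 : Function.update (fun i => if i ∈ s then -x i else x i) a
          (-(fun i => if i ∈ s then -x i else x i) a) =
          fun i => if i ∈ insert a s then -x i else x i := by
        ext i
        by_cases hia : i = a
        · subst hia
          simp [ha]
        · rw [Function.update_of_ne hia]
          simp [Finset.mem_insert, hia]
      rwa [h3] at h2
  have h2 := h1 Finset.univ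
  have h3 : (fun i => if i ∈ (Finset.univ : Finset ι) then -x i else x i) = -x := by
    ext i
    simp
  rwa [h3] at h2

/-- moving a coordinate towards zero -/
theorem cn_flip {K : Set (ι → ℝ)}
    (hflip : ∀ x ∈ K, ∀ i, Function.update x i (-x i) ∈ K) {x : ι → ℝ} (hx : x ∈ K) {i : ι}
    (hi : x i ≠ 0) {c : ℝ} (hc : c * x i ≤ 0) : Cn K x (Pi.single i c) := by
  have h1 : Cn K x (Pi.single i (-x i)) := by
    refine ⟨2, two_pos, ?_⟩
    have h2 : x + (2 : ℝ) • (Pi.single i (-x i) : ι → ℝ) = Function.update x i (-x i) := by
      ext k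
      by_cases hk : k = i
      · subst hk
        simp
        ring
      · simp [hk]
    rw [h2]
    exact hflip x hx i
  have h2 : (Pi.single i c : ι → ℝ) = (-c / x i) • (Pi.single i (-x i) : ι → ℝ) := by
    ext k
    by_cases hk : k = i
    · subst hk
      simp only [Pi.single_eq_same, Pi.smul_apply, smul_eq_mul]
      field_simp
    · simp [hk]
  rw [h2]
  refine h1.smul hx ?_
  rw [div_eq_mul_inv, ← div_eq_mul_inv, div_nonneg_iff]
  rcases lt_or_gt_of_ne hi with h | h
  · right
    exact ⟨by nlinarith, h.le⟩
  · left
    exact ⟨by nlinarith, h.le⟩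

/-- moving mass from a coordinate to a vanishing coordinate -/
theorem cn_exchange {K : Set (ι → ℝ)}
    (hflip : ∀ x ∈ K, ∀ i, Function.update x i (-x i) ∈ K) {x : ι → ℝ} (hx : x ∈ K) {i l : ι}
    (hswap : (fun k => x (Equiv.swap i l k)) ∈ K)
    (hi : x i ≠ 0) (hl : x l = 0) {c : ℝ} :
    Cn K x (Pi.single l c + Pi.single i (-(SignType.sign (x i) : ℝ) * |c|)) := by
  have hne : i ≠ l := by rintro rfl; exact hi hl
  have hlast : ∀ σ : ℝ, (σ = 1 ∨ σ = -1) →
      Cn K x (Pi.single l (σ * x i) + Pi.single i (-x i)) := by
    intro σ hσ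
    refine ⟨1, one_pos, ?_⟩
    have hK : (fun k => if k = l then σ * x i else if k = i then 0 else x k) ∈ K := by
      have e1 : (fun k => x (Equiv.swap i l k)) =
          fun k => if k = l then x i else if k = i then 0 else x k := by
        ext k
        by_cases hk : k = l
        · subst hk; simp
        · by_cases hk2 : k = i
          · subst hk2
            rw [Equiv.swap_apply_left, hl, if_neg hk, if_pos rfl]
          · rw [Equiv.swap_apply_of_ne_of_ne hk2 hk, if_neg hk, if_neg hk2]
      rw [e1] at hswap
      rcases hσ with rfl | rfl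
      · simpa using hswap
      · have h2 := hflip _ hswap l
        have e2 : Function.update (fun k => if k = l then x i else if k = i then 0 else x k) l
            (-(fun k => if k = l then x i else if k = i then 0 else x k) l) =
            fun k => if k = l then -1 * x i else if k = i then 0 else x k := by
          ext k
          by_cases hk : k = l
          · subst hk; simp
          · rw [Function.update_of_ne hk]
            simp [hk]
        rwa [e2] at h2
    have e3 : x + (1 : ℝ) • ((Pi.single l (σ * x i) : ι → ℝ) + Pi.single i (-x i)) =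
        fun k => if k = l then σ * x i else if k = i then 0 else x k := by
      ext k
      by_cases hk : k = l
      · subst hk
        simp [hl, hne.symm]
      · by_cases hk2 : k = i
        · subst hk2
          simp [hk]
        · simp [hk, hk2]
    rw [e3]
    exact hK
  -- scaling
  obtain ⟨σ, hσ, hσc⟩ : ∃ σ : ℝ, (σ = 1 ∨ σ = -1) ∧ c = (|c| / |x i|) * (σ * x i) := by
    have h1 : 0 < |x i| := abs_pos.2 hi
    rcases le_or_gt 0 (c * x i) with h | h
    · refine ⟨1, Or.inl rfl, ?_⟩
      rcases lt_or_gt_of_ne hi with h2 | h2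
      · have h3 : c ≤ 0 := by nlinarith
        rw [abs_of_neg h2, abs_of_nonpos h3]
        field_simp
      · have h3 : 0 ≤ c := by nlinarith
        rw [abs_of_pos h2, abs_of_nonneg h3]
        field_simp
    · refine ⟨-1, Or.inr rfl, ?_⟩
      rcases lt_or_gt_of_ne hi with h2 | h2
      · have h3 : 0 ≤ c := by nlinarith
        rw [abs_of_neg h2, abs_of_nonneg h3]
        field_simp
      · have h3 : c ≤ 0 := by nlinarith
        rw [abs_of_pos h2, abs_of_nonpos h3]
        field_simp
  have h1 := (hlast σ hσ).smul hx (c := |c| / |x i|) (by positivity)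
  have h2 : (|c| / |x i|) • ((Pi.single l (σ * x i) : ι → ℝ) + Pi.single i (-x i)) =
      Pi.single l c + Pi.single i (-(SignType.sign (x i) : ℝ) * |c|) := by
    have h3 : (|c| / |x i|) * (-x i) = -(SignType.sign (x i) : ℝ) * |c| := by
      have h4 : (SignType.sign (x i) : ℝ) * |x i| = x i := sign_mul_abs (x i)
      have h5 : |x i| ≠ 0 := (abs_pos.2 hi).ne'
      rw [div_mul_eq_mul_div, div_eq_iff h5]
      linear_combination (-|c|) * h4.symm
    ext k
    simp only [Pi.smul_apply, Pi.add_apply, smul_eq_mul, Pi.single_apply, mul_add, mul_ite,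
      mul_zero]
    rw [← hσc, h3]
  rw [h2] at h1
  exact h1

/-- The combination. -/
theorem cn_all {K : Set (ι → ℝ)} (hK : Convex ℝ K)
    (hflip : ∀ x ∈ K, ∀ i, Function.update x i (-x i) ∈ K) {x : ι → ℝ} (hx : x ∈ K)
    (L : ι → ι) (hswap : ∀ t, (fun k => x (Equiv.swap (L t) t k)) ∈ K) (u : ι → ℝ)
    (hu0 : ∀ t, x t = 0 → x (L t) = 0 → u t = 0)
    (hu1 : ∀ t, x t ≠ 0 → (u t + (SignType.sign (x t) : ℝ) *
      ∑ t', (if L t' = t then (if x t' = 0 then |u t'| else 0) else 0)) * x t ≤ 0) :
    Cn K x u := by
  set c : ι → ℝ := fun t => if x t = 0 then |u t| else 0 with hc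
  set F : ι → ι → ℝ := fun t => Pi.single t (u t) +
    Pi.single (L t) (-(SignType.sign (x (L t)) : ℝ) * c t) +
    Pi.single t ((SignType.sign (x t) : ℝ) * ∑ t', (if L t' = t then c t' else 0)) with hF
  have hsum : u = ∑ t, F t := by
    ext k
    simp only [hF, Finset.sum_apply, Pi.add_apply, Finset.sum_add_distrib, Pi.single_apply,
      Finset.sum_ite_eq, Finset.mem_univ, if_true]
    have h1 : ∑ t, (if k = L t then -(SignType.sign (x (L t)) : ℝ) * c t else 0) =
        -((SignType.sign (x k) : ℝ) * ∑ t', (if L t' = k then c t' else 0)) := by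
      rw [Finset.mul_sum, ← Finset.sum_neg_distrib]
      refine Finset.sum_congr rfl fun t _ => ?_
      by_cases h : k = L t
      · rw [if_pos h, if_pos h.symm, h]
        ring
      · rw [if_neg h, if_neg (Ne.symm h)]
        ring
    rw [h1]
    ring
  rw [hsum]
  refine Cn.sum hK hx _ _ fun t _ => ?_
  by_cases ht : x t = 0
  · have h1 : (Pi.single t ((SignType.sign (x t) : ℝ) *
        ∑ t', (if L t' = t then c t' else 0)) : ι → ℝ) = 0 := by
      rw [ht]
      simp
    simp only [hF]
    rw [h1, add_zero]
    have h2 : c t = |u t| := by simp only [hc, if_pos ht]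
    by_cases hLt : x (L t) = 0
    · rw [h2, hu0 t ht hLt]
      simp only [Pi.single_zero, abs_zero, mul_zero, add_zero]
      exact Cn.zero hx
    · rw [h2]
      exact cn_exchange hflip hx (hswap t) hLt ht
  · have h2 : c t = 0 := by simp only [hc, if_neg ht]
    simp only [hF]
    rw [h2, mul_zero, Pi.single_zero, add_zero, ← Pi.single_add]
    exact cn_flip hflip hx ht (hu1 t ht)

end Pool.Agent.H843R3.Had3
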