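import Mathlib
import Pool.Agent.H843R3.Had3.Geo

set_option autoImplicit false
set_option maxHeartbeats 1000000
set_option linter.unusedSectionVars false
set_option linter.unusedVariables false

open Set Topology

namespace Pool.Agent.H843R3.Had3

open Pool.Agent.H843R3.Had2

variable {r : ℕ} {B : Fin r → Type} [∀ j, Fintype (B j)] [∀ j, DecidableEq (B j)]

/-- A convex body invariant under the signed permutations of the coordinates in each block. -/
structure Body (K : Set ((Σ j, B j) → ℝ)) : Prop where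
  conv : Convex ℝ K
  comp : IsCompact K
  int : (interior K).Nonempty
  flip : ∀ x ∈ K, ∀ i, Function.update x i (-x i) ∈ K
  swap : ∀ x ∈ K, ∀ s t : (Σ j, B j), s.1 = t.1 → (fun k => x (Equiv.swap s t k)) ∈ K

variable {K : Set ((Σ j, B j) → ℝ)}

/-- sign of a boolean -/
def sg (b : Bool) : ℝ := if b then 1 else -1

theorem abs_sg (b : Bool) : |sg b| = 1 := by
  unfold sg
  split_ifs <;> simp

/-- The directions -/
noncomputable def dir (f : ∀ j, (B j → Bool) → B j) (rank : (∀ j, B j → Bool) → Fin r → ℕ)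
    (δ q : ℝ) (ε : ∀ j, B j → Bool) : (Σ j, B j) → ℝ :=
  fun t => -(sg (ε t.1 t.2) * ((if t.2 = f t.1 (ε t.1) then 1 else δ) * q ^ rank ε t.1))

theorem Body.illuminate [∀ j, Nonempty (B j)] (h : Body K)
    (hkraft : ∑ j, (1 / (2 : ℝ) ^ Fintype.card (B j)) ≤ 1) :
    ∃ w : (∀ j, B j → Bool) → ((Σ j, B j) → ℝ), ∀ x ∈ K, ∃ ε, Co K x (w ε) := by
  classical
  choose f hf using fun j => exists_leader (B j) inferInstance
  obtain ⟨rank, hrank⟩ := exists_order (fun j => B j → Bool) (by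
    refine le_trans (le_of_eq ?_) hkraft
    refine Finset.sum_congr rfl fun j _ => ?_
    rw [Fintype.card_fun, Fintype.card_bool]
    push_cast
    rfl)
  have hneg := neg_of_flip h.flip
  have h0 : (0 : (Σ j, B j) → ℝ) ∈ interior K := zero_int h.conv hneg h.int
  obtain ⟨R, hR0, hR⟩ : ∃ R : ℝ, 0 < R ∧ ∀ x ∈ K, ∀ i, |x i| ≤ R := by
    obtain ⟨R, hR⟩ := h.comp.isBounded.exists_norm_le
    refine ⟨|R| + 1, by positivity, fun y hy i => ?_⟩
    have h1 := (norm_le_pi_norm y i).trans (hR y hy)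
    rw [Real.norm_eq_abs] at h1
    linarith [le_abs_self R]
  obtain ⟨ρ, hρ0, hρ⟩ : ∃ ρ : ℝ, 0 < ρ ∧ ∀ y : (Σ j, B j) → ℝ, (∀ i, |y i| ≤ ρ) →
      y ∈ interior K := by
    obtain ⟨ρ, hρ0, hρ⟩ := Metric.isOpen_iff.1 isOpen_interior 0 h0
    refine ⟨ρ / 2, by positivity, fun y hy => hρ ?_⟩
    rw [mem_ball_zero_iff]
    refine lt_of_le_of_lt ((pi_norm_le_iff_of_nonneg (by positivity)).2 fun i => ?_)
      (half_lt_self hρ0)
    rw [Real.norm_eq_abs]
    exact hy i
  set n : ℕ := Fintype.card (Σ j, B j) with hn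
  set δ : ℝ := 1 / ((n : ℝ) + 1) with hδ
  have hδ0 : 0 < δ := by positivity
  have hδ1 : δ ≤ 1 := by
    rw [hδ, div_le_one (by positivity)]
    have : (0 : ℝ) ≤ n := Nat.cast_nonneg n
    linarith
  have hδn : (n : ℝ) * δ + δ = 1 := by
    rw [hδ]
    field_simp
  set q : ℝ := δ * ρ / (2 * (R + ρ)) with hq
  have hq0 : 0 < q := by positivity
  have hqR : q * R ≤ δ * ρ := by
    rw [hq, div_mul_eq_mul_div, div_le_iff₀ (by positivity)]
    have : 0 < δ * ρ := by positivity
    nlinarith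
  have hq1 : q ≤ 1 := by
    rw [hq, div_le_one (by positivity)]
    nlinarith
  refine ⟨dir f rank δ q, fun x hx => ?_⟩
  by_cases hx0 : x = 0
  · subst hx0
    exact ⟨fun _ _ => true, Co.of_interior h0 _⟩
  -- the blocks
  set D : Finset (Fin r) := Finset.univ.filter (fun j => ∀ i : B j, x ⟨j, i⟩ = 0) with hD
  have hDm : ∀ j, j ∈ D ↔ ∀ i : B j, x ⟨j, i⟩ = 0 := fun j => by simp [hD]
  have hex : ∀ j, ∃ a : B j → Bool, j ∉ D →
      (∀ i, x ⟨j, i⟩ ≠ 0 → a i = decide (0 < x ⟨j, i⟩)) ∧ x ⟨j, f j a⟩ ≠ 0 := by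
    intro j
    by_cases hj : j ∈ D
    · exact ⟨fun _ => true, fun hcon => absurd hj hcon⟩
    · rw [hDm] at hj
      push Not at hj
      obtain ⟨i, hi⟩ := hj
      obtain ⟨a, h1, h2⟩ := hf j {i | x ⟨j, i⟩ ≠ 0} (fun i => decide (0 < x ⟨j, i⟩)) ⟨i, hi⟩
      exact ⟨a, fun _ => ⟨fun i hi => h1 i hi, h2⟩⟩
  choose a ha using hex
  obtain ⟨ε, hε1, hε2⟩ := hrank D a
  refine ⟨ε, ?_⟩
  have hsg : ∀ j, j ∉ D → ∀ i, x ⟨j, i⟩ ≠ 0 → sg (ε j i) = (SignType.sign (x ⟨j, i⟩) : ℝ) := by
    intro j hj i hi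
    rw [hε1 j hj, (ha j hj).1 i hi]
    unfold sg
    rcases lt_or_gt_of_ne hi with h1 | h1
    · rw [decide_eq_false (not_lt.2 h1.le), sign_neg h1]
      simp
    · rw [decide_eq_true h1, sign_pos h1]
      simp
  have hlead : ∀ j, j ∉ D → x ⟨j, f j (ε j)⟩ ≠ 0 := by
    intro j hj
    rw [hε1 j hj]
    exact (ha j hj).2
  obtain ⟨j0, hj0, hj0max⟩ : ∃ j0, j0 ∉ D ∧ ∀ j, j ∉ D → rank ε j ≤ rank ε j0 := by
    have hne : (Dᶜ).Nonempty := by
      by_contra hcon
      rw [Finset.not_nonempty_iff_eq_empty, Finset.compl_eq_empty_iff] at hcon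
      apply hx0
      ext ⟨j, i⟩
      exact (hDm j).1 (by rw [hcon]; exact Finset.mem_univ j) i
    obtain ⟨j0, h1, h2⟩ := Finset.exists_max_image (Dᶜ) (fun j => rank ε j) hne
    exact ⟨j0, Finset.mem_compl.1 h1, fun j hj => h2 j (Finset.mem_compl.2 hj)⟩
  set θ : ℝ := δ * q ^ rank ε j0 / R with hθ
  have hθ0 : 0 < θ := by positivity
  set w : (Σ j, B j) → ℝ := dir f rank δ q ε with hw
  have hwabs : ∀ t, |w t| = (if t.2 = f t.1 (ε t.1) then 1 else δ) * q ^ rank ε t.1 := by
    intro t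
    rw [hw]
    unfold dir
    rw [abs_neg, abs_mul, abs_sg, one_mul, abs_of_nonneg]
    split_ifs <;> positivity
  set y : (Σ j, B j) → ℝ := fun t => if t.1 ∈ D then w t / θ else 0 with hy
  have hyK : y ∈ interior K := by
    refine hρ y fun t => ?_
    simp only [hy]
    split_ifs with ht
    · rw [abs_div, abs_of_pos hθ0, div_le_iff₀ hθ0, hwabs]
      have h1 : rank ε j0 + 1 ≤ rank ε t.1 := hε2 j0 hj0 t.1 ht
      have h2 : q ^ rank ε t.1 ≤ q ^ (rank ε j0 + 1) := pow_le_pow_of_le_one hq0.le hq1 h1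
      have h3 : (if t.2 = f t.1 (ε t.1) then (1 : ℝ) else δ) ≤ 1 := by
        split_ifs
        · exact le_rfl
        · exact hδ1
      have h4 : 0 ≤ q ^ rank ε t.1 := by positivity
      have h5 : ρ * θ = (δ * ρ) * q ^ rank ε j0 / R := by rw [hθ]; ring
      have h6 : q ^ (rank ε j0 + 1) ≤ (δ * ρ) * q ^ rank ε j0 / R := by
        rw [le_div_iff₀ hR0, pow_succ]
        have h7 : 0 ≤ q ^ rank ε j0 := by positivity
        nlinarith
      rw [h5]
      calc (if t.2 = f t.1 (ε t.1) then (1 : ℝ) else δ) * q ^ rank ε t.1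
          ≤ 1 * q ^ rank ε t.1 := mul_le_mul_of_nonneg_right h3 h4
        _ = q ^ rank ε t.1 := one_mul _
        _ ≤ _ := h2.trans h6
    · rw [abs_zero]
      exact hρ0.le
  set u : (Σ j, B j) → ℝ := w + θ • x - θ • y with hu
  have huD : ∀ t : Σ j, B j, t.1 ∈ D → u t = 0 := by
    intro t ht
    have h1 : x t = 0 := (hDm t.1).1 ht t.2
    simp only [hu, Pi.sub_apply, Pi.add_apply, Pi.smul_apply, smul_eq_mul, hy, if_pos ht, h1]
    field_simp
    ring
  have huJ : ∀ t : Σ j, B j, t.1 ∉ D → u t = w t + θ * x t := by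
    intro t ht
    simp only [hu, Pi.sub_apply, Pi.add_apply, Pi.smul_apply, smul_eq_mul, hy, if_neg ht]
    ring
  have hcn : Cn K x u := by
    refine cn_all h.conv h.flip hx (fun t => ⟨t.1, f t.1 (ε t.1)⟩)
      (fun t => h.swap x hx _ t rfl) u ?_ ?_
    · intro t ht1 ht2
      refine huD t ?_
      by_contra hcon
      exact hlead t.1 hcon ht2
    · intro t ht
      have htD : t.1 ∉ D := fun hcon => ht ((hDm t.1).1 hcon t.2)
      set P : ℝ := q ^ rank ε t.1 with hP
      have hP0 : 0 < P := by positivity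
      have hP1 : q ^ rank ε j0 ≤ P := pow_le_pow_of_le_one hq0.le hq1 (hj0max t.1 htD)
      have hx1 : |x t| ≤ R := hR x hx t
      have hx2 : 0 < |x t| := abs_pos.2 ht
      have hθx : θ * |x t| ≤ δ * P := by
        rw [hθ, div_mul_eq_mul_div, div_le_iff₀ hR0]
        have h1 : 0 ≤ δ * q ^ rank ε j0 := by positivity
        have h2 : δ * q ^ rank ε j0 ≤ δ * P := mul_le_mul_of_nonneg_left hP1 hδ0.le
        nlinarith
      have hsgn : (SignType.sign (x t) : ℝ) * x t = |x t| := by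
        rw [mul_comm]
        exact self_mul_sign (x t)
      have hsq : x t * x t = |x t| * |x t| := (abs_mul_abs_self (x t)).symm
      have hwt : w t * x t = -((if t.2 = f t.1 (ε t.1) then 1 else δ) * P * |x t|) := by
        rw [hw]
        unfold dir
        rw [hsg t.1 htD t.2 ht]
        have : (SignType.sign (x ⟨t.1, t.2⟩) : ℝ) * x t = |x t| := hsgn
        linear_combination (-((if t.2 = f t.1 (ε t.1) then 1 else δ) * P)) * this
      have hut : u t * x t = -((if t.2 = f t.1 (ε t.1) then 1 else δ) * P * |x t|) +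
          θ * |x t| * |x t| := by
        rw [huJ t htD, add_mul, hwt, mul_assoc θ, hsq]
        ring
      have hgoal : (u t + (SignType.sign (x t) : ℝ) *
          ∑ t', (if (⟨t'.1, f t'.1 (ε t'.1)⟩ : Σ j, B j) = t then
            (if x t' = 0 then |u t'| else 0) else 0)) * x t =
          u t * x t + |x t| *
          ∑ t', (if (⟨t'.1, f t'.1 (ε t'.1)⟩ : Σ j, B j) = t then
            (if x t' = 0 then |u t'| else 0) else 0) := by
        rw [← hsgn]
        ring
      rw [hgoal, hut]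
      by_cases hl : t.2 = f t.1 (ε t.1)
      · rw [if_pos hl]
        have hS : ∑ t', (if (⟨t'.1, f t'.1 (ε t'.1)⟩ : Σ j, B j) = t then
            (if x t' = 0 then |u t'| else 0) else 0) ≤ (n : ℝ) * (δ * P) := by
          have h1 : ∀ t' ∈ (Finset.univ : Finset (Σ j, B j)),
              (if (⟨t'.1, f t'.1 (ε t'.1)⟩ : Σ j, B j) = t then
              (if x t' = 0 then |u t'| else 0) else 0) ≤ δ * P := by
            intro t' _
            split_ifs with h2 h3
            · have h4 : t'.1 = t.1 := by rw [← h2]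
              have h5 : t'.1 ∉ D := by rw [h4]; exact htD
              have h6 : t'.2 ≠ f t'.1 (ε t'.1) := by
                intro hcon
                apply ht
                rw [← h2, ← hcon]
                exact h3
              have h7 : q ^ rank ε t'.1 = P := by rw [hP, h4]
              rw [huJ t' h5, h3, mul_zero, add_zero, hwabs, if_neg h6, h7]
            · positivity
            · positivity
          have h2 := Finset.sum_le_card_nsmul _ _ _ h1
          rwa [Finset.card_univ, nsmul_eq_mul] at h2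
        have h3 : |x t| * ∑ t', (if (⟨t'.1, f t'.1 (ε t'.1)⟩ : Σ j, B j) = t then
            (if x t' = 0 then |u t'| else 0) else 0) ≤ |x t| * ((n : ℝ) * (δ * P)) :=
          mul_le_mul_of_nonneg_left hS hx2.le
        have h4 : θ * |x t| * |x t| ≤ δ * P * |x t| := mul_le_mul_of_nonneg_right hθx hx2.le
        have h5 : |x t| * ((n : ℝ) * (δ * P)) + δ * P * |x t| = P * |x t| := by
          linear_combination (P * |x t|) * hδn
        linarith
      · rw [if_neg hl]
        have hS : ∑ t', (if (⟨t'.1, f t'.1 (ε t'.1)⟩ : Σ j, B j) = t then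
            (if x t' = 0 then |u t'| else 0) else 0) = 0 := by
          refine Finset.sum_eq_zero fun t' _ => ?_
          rw [if_neg]
          rintro rfl
          exact hl rfl
        rw [hS, mul_zero, add_zero]
        have h4 : θ * |x t| * |x t| ≤ δ * P * |x t| := mul_le_mul_of_nonneg_right hθx hx2.le
        linarith
  have h1 := Co.of h.conv (hcn.smul hx (c := 1 / θ) (by positivity)) hyK
  have h2 := h1.smul hθ0
  have h3 : θ • ((1 / θ) • u + (y - x)) = w := by
    rw [smul_add, smul_smul, mul_one_div_cancel hθ0.ne', one_smul, hu, smul_sub]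
    abel
  rwa [h3] at h2

/-- The covering. -/
theorem Body.cover [∀ j, Nonempty (B j)] (h : Body K)
    (hkraft : ∑ j, (1 / (2 : ℝ) ^ Fintype.card (B j)) ≤ 1) :
    ∃ v : (∀ j, B j → Bool) → ((Σ j, B j) → ℝ), ∀ x ∈ K, ∃ ε, x - v ε ∈ interior K := by
  obtain ⟨w, hw⟩ := h.illuminate hkraft
  obtain ⟨ρ, hρ, h1⟩ := unif h.conv h.comp subset_rfl w hw
  refine ⟨fun j => -(ρ • w j), fun x hx => ?_⟩
  obtain ⟨j, hj⟩ := h1 x hx
  refine ⟨j, ?_⟩
  rw [sub_neg_eq_add]
  exact hj

end Pool.Agent.H843R3.Had3
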