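import Mathlib
import Pool.Agent.H843R3.Had3.Main

set_option autoImplicit false

/-!
# Unconditional convex bodies invariant under the permutations in blocks: the covering theorem

Let the coordinates of `ℝ^n` be divided into `r` blocks of sizes `m_1, ..., m_r` with
`2^(-m_1) + ... + 2^(-m_r) ≤ 1`. Every convex body in `ℝ^n` which is invariant under all changes of
signs of coordinates and under all permutations of the coordinates inside the blocks is
covered by `2 ^ n` translates of its interior. For `r = 1` these are the 1-symmetric bodies;
the condition on the sizes holds, for example, always if `r = 2`, and it holds if all blocks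
have size at least `log_2 r`. (If all blocks could have size 1, this would be the case
of all unconditional bodies.)

The proof. There is one direction for each vector of signs. The weights of the coordinates of the
direction depend on the sign vector: in each block there is a leading coordinate with
large weight, and the weights of the blocks are of very different sizes. A leading
coordinate is chosen such that each partial sign vector in the block has an extension
whose leading coordinate is in its support (induction on the size of the block). The order of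
the weights of the blocks is chosen such that every choice of sign vectors in some of the blocks
can be completed by sign vectors in the other blocks such that the weights of the latter are
smaller: the last block is determined by the position of a hash value (a sum over the
blocks) in intervals of lengths proportional to `2^(-m_j)`, and one continues with the remaining
blocks. Then a boundary point `x` is illuminated by the direction of a suitable extension of its
sign pattern: inside the body one can decrease the nonzero coordinates, and exchange mass
between the leading coordinate and the vanishing coordinates of its block.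
-/

namespace Pool.Agent.H843R3.Had3

/-- The covering theorem. -/
theorem cover_blocks (n r : ℕ) (hn : 1 ≤ n) (K : Set (EuclideanSpace ℝ (Fin n)))
    (hK : Convex ℝ K) (hKc : IsCompact K) (hKi : (interior K).Nonempty)
    (v : Module.Basis (Fin n) ℝ (EuclideanSpace ℝ (Fin n))) (b : Fin n → Fin r)
    (hblocks : ∑ j, (1 / 2 : ℝ) ^ (Finset.univ.filter (fun i => b i = j)).card ≤ 1)
    (hsign : ∀ i, ∀ x ∈ K, x - (2 * v.repr x i) • v i ∈ K)
    (hperm : ∀ i l, b i = b l → ∀ x ∈ K, ∑ k, v.repr x k • v (Equiv.swap i l k) ∈ K) :
    ∃ T : Finset (EuclideanSpace ℝ (Fin n)), T.card ≤ 2 ^ n ∧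
      K ⊆ ⋃ t ∈ T, (fun x => t + x) '' interior K := by
  -- the blocks are nonempty
  have hfib : ∀ j, 0 < (Finset.univ.filter (fun i => b i = j)).card := by
    intro j
    by_contra hcon
    have h0 : (Finset.univ.filter (fun i => b i = j)).card = 0 := by omega
    set j' : Fin r := b ⟨0, hn⟩ with hj'
    have hne : j ≠ j' := by
      rintro h
      have h1 : (⟨0, hn⟩ : Fin n) ∈ Finset.univ.filter (fun i => b i = j) := by
        simp [h, hj']
      rw [Finset.card_eq_zero.1 h0] at h1
      exact absurd h1 (Finset.notMem_empty _)
    have h2 : ∑ k ∈ ({j, j'} : Finset (Fin r)),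
        (1 / 2 : ℝ) ^ (Finset.univ.filter (fun i => b i = k)).card ≤
        ∑ k, (1 / 2 : ℝ) ^ (Finset.univ.filter (fun i => b i = k)).card :=
      Finset.sum_le_sum_of_subset_of_nonneg (Finset.subset_univ _) fun _ _ _ => by positivity
    rw [Finset.sum_pair hne, h0, pow_zero] at h2
    have h3 : (0 : ℝ) < (1 / 2 : ℝ) ^ (Finset.univ.filter (fun i => b i = j')).card := by
      positivity
    linarith
  have hNe : ∀ j, Nonempty {i : Fin n // b i = j} := by
    intro j
    obtain ⟨i, hi⟩ := Finset.card_pos.1 (hfib j)
    exact ⟨⟨i, by simpa using hi⟩⟩
  set e : (Σ j, {i : Fin n // b i = j}) ≃ Fin n := Equiv.sigmaFiberEquiv b with he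
  have hbe : ∀ s : (Σ j, {i : Fin n // b i = j}), b (e s) = s.1 := fun s => s.2.2
  have hswape : ∀ s t k : (Σ j, {i : Fin n // b i = j}),
      e (Equiv.swap s t k) = Equiv.swap (e s) (e t) (e k) := by
    intro s t k
    by_cases h1 : k = s
    · rw [h1, Equiv.swap_apply_left, Equiv.swap_apply_left]
    · by_cases h2 : k = t
      · rw [h2, Equiv.swap_apply_right, Equiv.swap_apply_right]
      · rw [Equiv.swap_apply_of_ne_of_ne h1 h2, Equiv.swap_apply_of_ne_of_ne]
        · exact fun h => h1 (e.injective h)
        · exact fun h => h2 (e.injective h)
  set v' : Module.Basis (Σ j, {i : Fin n // b i = j}) ℝ (EuclideanSpace ℝ (Fin n)) :=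
    v.reindex e.symm with hv'
  set Φ : ((Σ j, {i : Fin n // b i = j}) → ℝ) ≃L[ℝ] EuclideanSpace ℝ (Fin n) :=
    v'.equivFun.symm.toContinuousLinearEquiv with hΦ
  have hΦx : ∀ x, Φ x = ∑ i, x i • v' i := by
    intro x
    rw [hΦ]
    simp only [LinearEquiv.coe_toContinuousLinearEquiv']
    exact v'.equivFun_symm_apply x
  have hv'i : ∀ i, v' i = v (e i) := by
    intro i
    rw [hv', Module.Basis.reindex_apply, Equiv.symm_symm]
  have hrepr : ∀ x i, v.repr (Φ x) (e i) = x i := by
    intro x i
    have h3 : v'.repr (Φ x) i = x i := by
      have h4 : v'.equivFun (Φ x) = x := v'.equivFun.apply_symm_apply x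
      have h5 := congrFun h4 i
      rwa [Module.Basis.equivFun_apply] at h5
    rw [← h3, hv', Module.Basis.repr_reindex_apply, Equiv.symm_symm]
  have hpre : Φ ⁻¹' K = Φ.toHomeomorph ⁻¹' K := rfl
  have hbody : Body (Φ ⁻¹' K) := by
    refine ⟨?_, ?_, ?_, ?_, ?_⟩
    · exact hK.linear_preimage Φ.toLinearEquiv.toLinearMap
    · rw [hpre, ← Homeomorph.image_symm]
      exact hKc.image (Homeomorph.continuous _)
    · obtain ⟨y, hy⟩ := hKi
      refine ⟨Φ.symm y, ?_⟩
      rw [hpre, ← Homeomorph.preimage_interior]
      show Φ (Φ.symm y) ∈ interior K
      rwa [ContinuousLinearEquiv.apply_symm_apply]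
    · intro x hx i
      show Φ (Function.update x i (-x i)) ∈ K
      have h1 := hsign (e i) (Φ x) hx
      rw [hrepr, ← hv'i] at h1
      have h2 : Φ (Function.update x i (-x i)) = Φ x - (2 * x i) • v' i := by
        have h3 : Function.update x i (-x i) = x - Pi.single i (2 * x i) := by
          ext k
          by_cases hk : k = i
          · subst hk
            simp
            ring
          · simp [hk]
        rw [h3, map_sub]
        congr 1
        rw [hΦx, Finset.sum_eq_single i]
        · rw [Pi.single_eq_same]
        · intro k _ hk
          rw [Pi.single_eq_of_ne hk, zero_smul]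
        · intro h
          exact absurd (Finset.mem_univ _) h
      rw [h2]
      exact h1
    · intro x hx s t hst
      have h1 := hperm (e s) (e t) (by rw [hbe, hbe, hst]) (Φ x) hx
      have h2 : ∑ k, v.repr (Φ x) k • v (Equiv.swap (e s) (e t) k) =
          Φ (fun k => x (Equiv.swap s t k)) := by
        rw [← Equiv.sum_comp e, hΦx (fun k => x (Equiv.swap s t k)),
          ← Equiv.sum_comp (Equiv.swap s t) (fun k => x (Equiv.swap s t k) • v' k)]
        refine Finset.sum_congr rfl fun k _ => ?_
        rw [hrepr, Equiv.swap_apply_self, hv'i, hswape]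
      rw [Set.mem_preimage, ← h2]
      exact h1
  have hkraft : ∑ j, (1 / (2 : ℝ) ^ Fintype.card {i : Fin n // b i = j}) ≤ 1 := by
    refine le_trans (le_of_eq ?_) hblocks
    refine Finset.sum_congr rfl fun j _ => ?_
    rw [Fintype.card_subtype, one_div_pow]
  obtain ⟨w, hw⟩ := hbody.cover hkraft
  classical
  refine ⟨Finset.univ.image (fun j => Φ (w j)), ?_, ?_⟩
  · refine Finset.card_image_le.trans (le_of_eq ?_)
    rw [Finset.card_univ, Fintype.card_pi]
    simp only [Fintype.card_fun, Fintype.card_bool]
    rw [Finset.prod_pow_eq_pow_sum, ← Fintype.card_sigma, Fintype.card_congr e, Fintype.card_fin]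
  · intro x hx
    obtain ⟨j, hj⟩ := hw (Φ.symm x) (by
      show Φ (Φ.symm x) ∈ K
      rwa [ContinuousLinearEquiv.apply_symm_apply])
    rw [hpre, ← Homeomorph.preimage_interior] at hj
    have h4 : Φ (Φ.symm x - w j) ∈ interior K := hj
    rw [map_sub, ContinuousLinearEquiv.apply_symm_apply] at h4
    simp only [Set.mem_iUnion]
    refine ⟨Φ (w j), Finset.mem_image_of_mem _ (Finset.mem_univ _), x - Φ (w j), h4, ?_⟩
    simp

end Pool.Agent.H843R3.Had3
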