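import Mathlib
import Pool.Agent.H843R3.Had3.Main

set_option autoImplicit false
set_option maxHeartbeats 1000000
set_option linter.unusedSectionVars false
set_option linter.unusedVariables false

open Set Topology

namespace Pool.Agent.H843R3.Had3

open Pool.Agent.H843R3.Had2

/-- The ordering of the blocks, some blocks being left out. -/
theorem exists_order' {r : ℕ} (A : Fin r → Type) [∀ j, Fintype (A j)] [∀ j, Nonempty (A j)]
    (hA : ∑ j, (1 / (Fintype.card (A j) : ℝ)) ≤ 1) (Z0 : Finset (Fin r)) :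
    ∃ rank : (∀ j, A j) → Fin r → ℕ, (∀ a j, rank a j ≤ r) ∧
      (∀ a a' : ∀ j, A j, (∀ j ∉ Z0, a j = a' j) → rank a = rank a') ∧
      ∀ D : Finset (Fin r), Z0 ⊆ D → ∀ a : ∀ j, A j,
      ∃ a' : ∀ j, A j, (∀ j ∉ D, a' j = a j) ∧
        ∀ j ∉ D, ∀ j' ∈ D, j' ∉ Z0 → rank a' j < rank a' j' := by
  classical
  rcases Nat.eq_zero_or_pos r with rfl | hr
  · exact ⟨fun _ _ => 0, fun _ j => j.elim0, fun _ _ _ => rfl,
      fun D _ a => ⟨a, fun _ _ => rfl, fun j => j.elim0⟩⟩
  have : Inhabited (Fin r) := ⟨⟨0, hr⟩⟩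
  set p : Fin r → ℤ := fun j => (Fintype.card (A j) : ℤ) with hpdef
  set N : ℤ := ∏ j, p j with hN
  set g : Fin r → ℤ := fun j => ∏ i ∈ Finset.univ.erase j, p i with hgdef
  have hp0 : ∀ j, 0 < p j := fun j => by
    simp only [hpdef]
    exact_mod_cast Fintype.card_pos
  have hg : ∀ j, 0 < g j := fun j => Finset.prod_pos fun i _ => hp0 i
  have hp : ∀ j, p j * g j = N := fun j => Finset.mul_prod_erase _ _ (Finset.mem_univ j)
  set s : Fin r → ℤ := fun j => ∑ i ∈ Finset.Iio j, g i with hsdef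
  have hs0 : ∀ j, 0 ≤ s j := fun j => Finset.sum_nonneg fun i _ => (hg i).le
  have hsum : ∑ j, g j ≤ N := by
    have h1 : (∑ j, (g j : ℝ)) ≤ (N : ℝ) := by
      have hN0 : (0 : ℝ) < N := by
        exact_mod_cast Finset.prod_pos fun j _ => hp0 j
      have h2 : ∀ j, (g j : ℝ) = (N : ℝ) * (1 / (Fintype.card (A j) : ℝ)) := by
        intro j
        have h3 : ((p j : ℝ)) * (g j : ℝ) = N := by exact_mod_cast hp j
        have h4 : (p j : ℝ) = (Fintype.card (A j) : ℝ) := by simp [hpdef]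
        have h5 : (0 : ℝ) < (Fintype.card (A j) : ℝ) := by exact_mod_cast Fintype.card_pos
        rw [h4] at h3
        rw [← h3]
        field_simp
      rw [Finset.sum_congr rfl fun j _ => h2 j, ← Finset.mul_sum]
      nlinarith
    exact_mod_cast h1
  have hIic : ∀ j, s j + g j = ∑ i ∈ Finset.Iic j, g i := by
    intro j
    rw [← Finset.Iio_insert, Finset.sum_insert (by simp), add_comm]
  have hs1 : ∀ j, s j + g j ≤ N := by
    intro j
    rw [hIic]
    exact (Finset.sum_le_sum_of_subset_of_nonneg (Finset.subset_univ _)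
      fun i _ _ => (hg i).le).trans hsum
  have hs2 : ∀ i j, i < j → s i + g i ≤ s j := by
    intro i j hij
    rw [hIic]
    refine Finset.sum_le_sum_of_subset_of_nonneg ?_ fun i _ _ => (hg i).le
    intro k hk
    rw [Finset.mem_Iic] at hk
    rw [Finset.mem_Iio]
    exact lt_of_le_of_lt hk hij
  set code : ∀ j, A j → ℤ := fun j a => ((Fintype.equivFin (A j) a : ℕ) : ℤ) with hcodedef
  have hcode : ∀ j (q : ℤ), ∃ a : A j, p j ∣ code j a - q := by
    intro j q
    have h1 := Int.emod_nonneg q (hp0 j).ne'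
    have h2 := Int.emod_lt_of_pos q (hp0 j)
    obtain ⟨m, hm⟩ := Int.eq_ofNat_of_zero_le h1
    have hm2 : m < Fintype.card (A j) := by
      rw [hm] at h2
      have h3 : ((m : ℕ) : ℤ) < (Fintype.card (A j) : ℤ) := h2
      exact_mod_cast h3
    refine ⟨(Fintype.equivFin (A j)).symm ⟨m, hm2⟩, ?_⟩
    simp only [hcodedef, Equiv.apply_symm_apply]
    rw [show ((m : ℕ) : ℤ) = q % p j from hm.symm]
    refine ⟨-(q / p j), ?_⟩
    have := Int.emod_add_mul_ediv q (p j)
    linarith
  set U : Finset (Fin r) := Finset.univ \ Z0 with hU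
  refine ⟨rk code g s N U.card U, ?_, ?_, fun D hD a => ?_⟩
  · intro a j
    refine (rk_le code g s N _ _ _ _).trans ?_
    have := Finset.card_le_univ U
    rwa [Fintype.card_fin] at this
  · intro a a' h
    funext j
    refine rk_congr code g s N _ _ _ _ (fun i hi => h i ?_) j
    rw [hU, Finset.mem_sdiff] at hi
    exact hi.2
  · obtain ⟨a', h1, h2⟩ := rk_spec code g s N p hg hp hs0 hs1 hs2 hcode U.card U rfl (D \ Z0)
      (by
        intro j hj
        rw [Finset.mem_sdiff] at hj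
        rw [hU, Finset.mem_sdiff]
        exact ⟨Finset.mem_univ j, hj.2⟩) a
    refine ⟨a', fun j hj => h1 j fun h => hj (Finset.mem_sdiff.1 h).1, ?_⟩
    intro j hj j' hj' hj'0
    refine h2 j ?_ (fun h => hj (Finset.mem_sdiff.1 h).1) j' (Finset.mem_sdiff.2 ⟨hj', hj'0⟩)
    rw [hU, Finset.mem_sdiff]
    exact ⟨Finset.mem_univ j, fun h => hj (hD h)⟩

variable {r : ℕ} {B : Fin r → Type} [∀ j, Fintype (B j)] [∀ j, DecidableEq (B j)]

/-- A convex set invariant under the signed permutations of the coordinates in each block. -/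
structure SSet (K : Set ((Σ j, B j) → ℝ)) : Prop where
  conv : Convex ℝ K
  flip : ∀ x ∈ K, ∀ i, Function.update x i (-x i) ∈ K
  swap : ∀ x ∈ K, ∀ s t : (Σ j, B j), s.1 = t.1 → (fun k => x (Equiv.swap s t k)) ∈ K

/-- truncated directions -/
noncomputable def pdir (Z : Finset (Fin r)) (f : ∀ j, (B j → Bool) → B j)
    (rank : (∀ j, B j → Bool) → Fin r → ℕ) (δ q : ℝ) (ε : ∀ j, B j → Bool) : (Σ j, B j) → ℝ :=
  fun t => if t.1 ∈ Z then 0 else dir f rank δ q ε t

theorem universal [∀ j, Nonempty (B j)]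
    (hkraft : ∑ j, (1 / (2 : ℝ) ^ Fintype.card (B j)) ≤ 1)
    (Z Z0 : Finset (Fin r)) (hZ : Z0 ⊆ Z) {R ρ : ℝ} (hR0 : 0 < R) (hρ0 : 0 < ρ) :
    ∃ w : (∀ j, B j → Bool) → ((Σ j, B j) → ℝ), ∃ lam0 : ℝ, 0 < lam0 ∧
      (∀ ε ε' : ∀ j, B j → Bool, (∀ j ∉ Z0, ε j = ε' j) → w ε = w ε') ∧
      ∀ K : Set ((Σ j, B j) → ℝ), SSet K → (∀ x ∈ K, ∀ i, |x i| ≤ R) →
        (∀ x ∈ K, ∀ i, i.1 ∈ Z → x i = 0) →
        (∀ y : (Σ j, B j) → ℝ, (∀ i, |y i| ≤ ρ) → (∀ i, i.1 ∈ Z → y i = 0) → y ∈ K) →
        ∀ x ∈ K, ∃ ε, ∀ lam : ℝ, 0 ≤ lam → lam ≤ lam0 → Cn K x (w ε + lam • x) := by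
  classical
  choose f hf using fun j => exists_leader (B j) inferInstance
  obtain ⟨rank, hrk, hrkc, hrank⟩ := exists_order' (fun j => B j → Bool) (by
    refine le_trans (le_of_eq ?_) hkraft
    refine Finset.sum_congr rfl fun j _ => ?_
    rw [Fintype.card_fun, Fintype.card_bool]
    push_cast
    rfl) Z0
  set n : ℕ := Fintype.card (Σ j, B j) with hn
  set δ : ℝ := 1 / ((n : ℝ) + 1) with hδ
  have hδ0 : 0 < δ := by positivity
  have hδ1 : δ ≤ 1 := by
    rw [hδ, div_le_one (by positivity)]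
    have : (0 : ℝ) ≤ n := Nat.cast_nonneg n
    linarith
  have hδn : (n : ℝ) * δ + δ = 1 := by
    rw [hδ]
    field_simp
  set q : ℝ := δ * ρ / (2 * (R + ρ)) with hq
  have hq0 : 0 < q := by positivity
  have hqR : q * (2 * R) ≤ δ * ρ := by
    rw [hq, div_mul_eq_mul_div, div_le_iff₀ (by positivity)]
    have : 0 < δ * ρ := by positivity
    nlinarith
  have hq1 : q ≤ 1 := by
    rw [hq, div_le_one (by positivity)]
    nlinarith
  set lam0 : ℝ := δ * q ^ r / (2 * R) with hlam0
  have hlam00 : 0 < lam0 := by positivity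
  refine ⟨pdir Z f rank δ q, lam0, hlam00, ?_, ?_⟩
  · intro ε ε' h
    funext t
    unfold pdir dir
    by_cases ht : t.1 ∈ Z
    · rw [if_pos ht, if_pos ht]
    · rw [if_neg ht, if_neg ht, hrkc ε ε' h, h t.1 fun h' => ht (hZ h')]
  intro K h hR hKZ hρ x hx
  by_cases hx0 : x = 0
  · subst hx0
    refine ⟨fun _ _ => true, fun lam _ _ => ?_⟩
    rw [smul_zero, add_zero]
    set w0 := pdir Z f rank δ q (fun _ _ => true) with hw0
    obtain ⟨M, hM0, hM⟩ : ∃ M : ℝ, 0 < M ∧ ∀ i, |w0 i| ≤ M :=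
      ⟨‖w0‖ + 1, by positivity, fun i => by
        have := norm_le_pi_norm w0 i
        rw [Real.norm_eq_abs] at this
        linarith⟩
    refine ⟨ρ / M, by positivity, ?_⟩
    rw [zero_add]
    refine hρ _ (fun i => ?_) (fun i hi => ?_)
    · rw [Pi.smul_apply, smul_eq_mul, abs_mul, abs_of_pos (by positivity : 0 < ρ / M),
        div_mul_eq_mul_div, div_le_iff₀ hM0]
      exact mul_le_mul_of_nonneg_left (hM i) hρ0.le
    · rw [Pi.smul_apply, hw0]
      unfold pdir
      rw [if_pos hi, smul_zero]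
  -- the blocks
  set D : Finset (Fin r) := Finset.univ.filter (fun j => ∀ i : B j, x ⟨j, i⟩ = 0) with hD
  have hDm : ∀ j, j ∈ D ↔ ∀ i : B j, x ⟨j, i⟩ = 0 := fun j => by simp [hD]
  have hZD : Z ⊆ D := fun j hj => (hDm j).2 fun i => hKZ x hx ⟨j, i⟩ hj
  have hex : ∀ j, ∃ a : B j → Bool, j ∉ D →
      (∀ i, x ⟨j, i⟩ ≠ 0 → a i = decide (0 < x ⟨j, i⟩)) ∧ x ⟨j, f j a⟩ ≠ 0 := by
    intro j
    by_cases hj : j ∈ D
    · exact ⟨fun _ => true, fun hcon => absurd hj hcon⟩
    · rw [hDm] at hj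
      push Not at hj
      obtain ⟨i, hi⟩ := hj
      obtain ⟨a, h1, h2⟩ := hf j {i | x ⟨j, i⟩ ≠ 0} (fun i => decide (0 < x ⟨j, i⟩)) ⟨i, hi⟩
      exact ⟨a, fun _ => ⟨fun i hi => h1 i hi, h2⟩⟩
  choose a ha using hex
  obtain ⟨ε, hε1, hε2⟩ := hrank D (hZ.trans hZD) a
  refine ⟨ε, fun lam hlam1 hlam2 => ?_⟩
  have hsg : ∀ j, j ∉ D → ∀ i, x ⟨j, i⟩ ≠ 0 → sg (ε j i) = (SignType.sign (x ⟨j, i⟩) : ℝ) := by
    intro j hj i hi
    rw [hε1 j hj, (ha j hj).1 i hi]
    unfold sg
    rcases lt_or_gt_of_ne hi with h1 | h1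
    · rw [decide_eq_false (not_lt.2 h1.le), sign_neg h1]
      simp
    · rw [decide_eq_true h1, sign_pos h1]
      simp
  have hlead : ∀ j, j ∉ D → x ⟨j, f j (ε j)⟩ ≠ 0 := by
    intro j hj
    rw [hε1 j hj]
    exact (ha j hj).2
  obtain ⟨j0, hj0, hj0max⟩ : ∃ j0, j0 ∉ D ∧ ∀ j, j ∉ D → rank ε j ≤ rank ε j0 := by
    have hne : (Dᶜ).Nonempty := by
      by_contra hcon
      rw [Finset.not_nonempty_iff_eq_empty, Finset.compl_eq_empty_iff] at hcon
      apply hx0
      ext ⟨j, i⟩
      exact (hDm j).1 (by rw [hcon]; exact Finset.mem_univ j) i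
    obtain ⟨j0, h1, h2⟩ := Finset.exists_max_image (Dᶜ) (fun j => rank ε j) hne
    exact ⟨j0, Finset.mem_compl.1 h1, fun j hj => h2 j (Finset.mem_compl.2 hj)⟩
  set θ : ℝ := δ * q ^ rank ε j0 / (2 * R) with hθ
  have hθ0 : 0 < θ := by positivity
  have hlamθ : lam ≤ θ := by
    refine hlam2.trans ?_
    rw [hlam0, hθ]
    refine div_le_div_of_nonneg_right ?_ (by positivity)
    exact mul_le_mul_of_nonneg_left (pow_le_pow_of_le_one hq0.le hq1 (hrk ε j0)) hδ0.le
  set w : (Σ j, B j) → ℝ := pdir Z f rank δ q ε with hw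
  have hwZ : ∀ t : Σ j, B j, t.1 ∈ Z → w t = 0 := by
    intro t ht
    rw [hw]
    unfold pdir
    rw [if_pos ht]
  have hwZ' : ∀ t : Σ j, B j, t.1 ∉ Z → w t = dir f rank δ q ε t := by
    intro t ht
    rw [hw]
    unfold pdir
    rw [if_neg ht]
  have hwabs : ∀ t : Σ j, B j, t.1 ∉ Z →
      |w t| = (if t.2 = f t.1 (ε t.1) then 1 else δ) * q ^ rank ε t.1 := by
    intro t ht
    rw [hwZ' t ht]
    unfold dir
    rw [abs_neg, abs_mul, abs_sg, one_mul, abs_of_nonneg]
    split_ifs <;> positivity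
  set y : (Σ j, B j) → ℝ := fun t => if t.1 ∈ D then w t / θ else 0 with hy
  have hyK : y ∈ K := by
    refine hρ y (fun t => ?_) (fun t ht => ?_)
    · simp only [hy]
      split_ifs with ht
      · by_cases htZ : t.1 ∈ Z
        · rw [hwZ t htZ, zero_div, abs_zero]
          exact hρ0.le
        rw [abs_div, abs_of_pos hθ0, div_le_iff₀ hθ0, hwabs t htZ]
        have h1 : rank ε j0 + 1 ≤ rank ε t.1 := hε2 j0 hj0 t.1 ht fun h' => htZ (hZ h')
        have h2 : q ^ rank ε t.1 ≤ q ^ (rank ε j0 + 1) := pow_le_pow_of_le_one hq0.le hq1 h1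
        have h3 : (if t.2 = f t.1 (ε t.1) then (1 : ℝ) else δ) ≤ 1 := by
          split_ifs
          · exact le_rfl
          · exact hδ1
        have h4 : 0 ≤ q ^ rank ε t.1 := by positivity
        have h5 : ρ * θ = (δ * ρ) * q ^ rank ε j0 / (2 * R) := by rw [hθ]; ring
        have h6 : q ^ (rank ε j0 + 1) ≤ (δ * ρ) * q ^ rank ε j0 / (2 * R) := by
          rw [le_div_iff₀ (by positivity), pow_succ]
          have h7 : 0 ≤ q ^ rank ε j0 := by positivity
          nlinarith
        rw [h5]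
        calc (if t.2 = f t.1 (ε t.1) then (1 : ℝ) else δ) * q ^ rank ε t.1
            ≤ 1 * q ^ rank ε t.1 := mul_le_mul_of_nonneg_right h3 h4
          _ = q ^ rank ε t.1 := one_mul _
          _ ≤ _ := h2.trans h6
      · rw [abs_zero]
        exact hρ0.le
    · simp only [hy]
      rw [hwZ t ht, zero_div, ite_self]
  set u : (Σ j, B j) → ℝ := w + (θ + lam) • x - θ • y with hu
  have huD : ∀ t : Σ j, B j, t.1 ∈ D → u t = 0 := by
    intro t ht
    have h1 : x t = 0 := (hDm t.1).1 ht t.2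
    simp only [hu, Pi.sub_apply, Pi.add_apply, Pi.smul_apply, smul_eq_mul, hy, if_pos ht, h1]
    field_simp
    ring
  have huJ : ∀ t : Σ j, B j, t.1 ∉ D → u t = w t + (θ + lam) * x t := by
    intro t ht
    simp only [hu, Pi.sub_apply, Pi.add_apply, Pi.smul_apply, smul_eq_mul, hy, if_neg ht]
    ring
  have hcn : Cn K x u := by
    refine cn_all h.conv h.flip hx (fun t => ⟨t.1, f t.1 (ε t.1)⟩)
      (fun t => h.swap x hx _ t rfl) u ?_ ?_
    · intro t ht1 ht2
      refine huD t ?_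
      by_contra hcon
      exact hlead t.1 hcon ht2
    · intro t ht
      have htD : t.1 ∉ D := fun hcon => ht ((hDm t.1).1 hcon t.2)
      have htZ : t.1 ∉ Z := fun hcon => htD (hZD hcon)
      set P : ℝ := q ^ rank ε t.1 with hP
      have hP0 : 0 < P := by positivity
      have hP1 : q ^ rank ε j0 ≤ P := pow_le_pow_of_le_one hq0.le hq1 (hj0max t.1 htD)
      have hx1 : |x t| ≤ R := hR x hx t
      have hx2 : 0 < |x t| := abs_pos.2 ht
      have hθx : (θ + lam) * |x t| ≤ δ * P := by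
        have h0 : (θ + lam) * |x t| ≤ (2 * θ) * |x t| :=
          mul_le_mul_of_nonneg_right (by linarith) hx2.le
        have h00 : 2 * θ = δ * q ^ rank ε j0 / R := by rw [hθ]; field_simp
        refine h0.trans ?_
        rw [h00, div_mul_eq_mul_div, div_le_iff₀ hR0]
        have h1 : 0 ≤ δ * q ^ rank ε j0 := by positivity
        have h2 : δ * q ^ rank ε j0 ≤ δ * P := mul_le_mul_of_nonneg_left hP1 hδ0.le
        nlinarith
      have hsgn : (SignType.sign (x t) : ℝ) * x t = |x t| := by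
        rw [mul_comm]
        exact self_mul_sign (x t)
      have hsq : x t * x t = |x t| * |x t| := (abs_mul_abs_self (x t)).symm
      have hwt : w t * x t = -((if t.2 = f t.1 (ε t.1) then 1 else δ) * P * |x t|) := by
        rw [hwZ' t htZ]
        unfold dir
        rw [hsg t.1 htD t.2 ht]
        have : (SignType.sign (x ⟨t.1, t.2⟩) : ℝ) * x t = |x t| := hsgn
        linear_combination (-((if t.2 = f t.1 (ε t.1) then 1 else δ) * P)) * this
      have hut : u t * x t = -((if t.2 = f t.1 (ε t.1) then 1 else δ) * P * |x t|) +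
          (θ + lam) * |x t| * |x t| := by
        rw [huJ t htD, add_mul, hwt, mul_assoc (θ + lam), hsq]
        ring
      have hgoal : (u t + (SignType.sign (x t) : ℝ) *
          ∑ t', (if (⟨t'.1, f t'.1 (ε t'.1)⟩ : Σ j, B j) = t then
            (if x t' = 0 then |u t'| else 0) else 0)) * x t =
          u t * x t + |x t| *
          ∑ t', (if (⟨t'.1, f t'.1 (ε t'.1)⟩ : Σ j, B j) = t then
            (if x t' = 0 then |u t'| else 0) else 0) := by
        rw [← hsgn]
        ring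
      rw [hgoal, hut]
      by_cases hl : t.2 = f t.1 (ε t.1)
      · rw [if_pos hl]
        have hS : ∑ t', (if (⟨t'.1, f t'.1 (ε t'.1)⟩ : Σ j, B j) = t then
            (if x t' = 0 then |u t'| else 0) else 0) ≤ (n : ℝ) * (δ * P) := by
          have h1 : ∀ t' ∈ (Finset.univ : Finset (Σ j, B j)),
              (if (⟨t'.1, f t'.1 (ε t'.1)⟩ : Σ j, B j) = t then
              (if x t' = 0 then |u t'| else 0) else 0) ≤ δ * P := by
            intro t' _
            split_ifs with h2 h3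
            · have h4 : t'.1 = t.1 := by rw [← h2]
              have h5 : t'.1 ∉ D := by rw [h4]; exact htD
              have h5' : t'.1 ∉ Z := by rw [h4]; exact htZ
              have h6 : t'.2 ≠ f t'.1 (ε t'.1) := by
                intro hcon
                apply ht
                rw [← h2, ← hcon]
                exact h3
              have h7 : q ^ rank ε t'.1 = P := by rw [hP, h4]
              rw [huJ t' h5, h3, mul_zero, add_zero, hwabs t' h5', if_neg h6, h7]
            · positivity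
            · positivity
          have h2 := Finset.sum_le_card_nsmul _ _ _ h1
          rwa [Finset.card_univ, nsmul_eq_mul] at h2
        have h3 : |x t| * ∑ t', (if (⟨t'.1, f t'.1 (ε t'.1)⟩ : Σ j, B j) = t then
            (if x t' = 0 then |u t'| else 0) else 0) ≤ |x t| * ((n : ℝ) * (δ * P)) :=
          mul_le_mul_of_nonneg_left hS hx2.le
        have h4 : (θ + lam) * |x t| * |x t| ≤ δ * P * |x t| :=
          mul_le_mul_of_nonneg_right hθx hx2.le
        have h5 : |x t| * ((n : ℝ) * (δ * P)) + δ * P * |x t| = P * |x t| := by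
          linear_combination (P * |x t|) * hδn
        linarith
      · rw [if_neg hl]
        have hS : ∑ t', (if (⟨t'.1, f t'.1 (ε t'.1)⟩ : Σ j, B j) = t then
            (if x t' = 0 then |u t'| else 0) else 0) = 0 := by
          refine Finset.sum_eq_zero fun t' _ => ?_
          rw [if_neg]
          rintro rfl
          exact hl rfl
        rw [hS, mul_zero, add_zero]
        have h4 : (θ + lam) * |x t| * |x t| ≤ δ * P * |x t| :=
          mul_le_mul_of_nonneg_right hθx hx2.le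
        linarith
  have h1 : Cn K x (y - x) := ⟨1, one_pos, by simpa using hyK⟩
  have h2 := Cn.add h.conv hx hcn (h1.smul hx hθ0.le)
  have h3 : u + θ • (y - x) = w + lam • x := by
    rw [hu, smul_sub, add_smul]
    abel
  rwa [h3] at h2

end Pool.Agent.H843R3.Had3
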