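import Mathlib
import Pool.Agent.H843R3.Had3.Univ

set_option autoImplicit false
set_option maxHeartbeats 1000000
set_option linter.unusedSectionVars false
set_option linter.unusedVariables false

open Set Topology

namespace Pool.Agent.H843R3.Had3

open Pool.Agent.H843R3.Had2

variable {r : ℕ} {B : Fin r → Type} [∀ j, Fintype (B j)] [∀ j, DecidableEq (B j)]

theorem SSet.zeroed {K : Set ((Σ j, B j) → ℝ)} (h : SSet K) {y : (Σ j, B j) → ℝ} (hy : y ∈ K)
    (s : Finset (Σ j, B j)) : (fun k => if k ∈ s then 0 else y k) ∈ K := by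
  classical
  induction s using Finset.induction_on with
  | empty => simpa using hy
  | insert a s ha ih =>
    have h2 := h.flip _ ih a
    have h3 := h.conv ih h2 (a := 1 / 2) (b := 1 / 2) (by norm_num) (by norm_num) (by norm_num)
    convert h3 using 1
    ext k
    by_cases hk : k = a
    · subst hk
      simp [ha]
    · simp only [Finset.mem_insert, hk, false_or, Pi.add_apply, Pi.smul_apply, smul_eq_mul,
        Function.update_of_ne hk]
      ring

theorem SSet.single {K : Set ((Σ j, B j) → ℝ)} (h : SSet K) {y : (Σ j, B j) → ℝ} (hy : y ∈ K)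
    (i : Σ j, B j) : Pi.single i (y i) ∈ K := by
  have h1 := h.zeroed hy (Finset.univ.erase i)
  convert h1 using 1
  ext k
  by_cases hk : k = i
  · subst hk
    simp
  · simp [hk]

theorem SSet.box {K : Set ((Σ j, B j) → ℝ)} (h : SSet K) (h0 : (0 : (Σ j, B j) → ℝ) ∈ K)
    (Z : Finset (Fin r)) (hZ : ∀ j, j ∉ Z → ∃ y ∈ K, ∃ i : B j, y ⟨j, i⟩ ≠ 0) :
    ∃ ρ : ℝ, 0 < ρ ∧ ∀ y : (Σ j, B j) → ℝ, (∀ i, |y i| ≤ ρ) → (∀ i, i.1 ∈ Z → y i = 0) →
      y ∈ K := by
  classical
  have h1 : ∀ s : (Σ j, B j), ∃ c : ℝ, 0 < c ∧ (s.1 ∉ Z → ∀ a : ℝ, |a| ≤ c →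
      Pi.single s a ∈ K) := by
    intro s
    by_cases hs : s.1 ∈ Z
    · exact ⟨1, one_pos, fun hcon => absurd hs hcon⟩
    · obtain ⟨y, hy, i, hi⟩ := hZ s.1 hs
      set c : ℝ := y ⟨s.1, i⟩ with hc
      have h2 : Pi.single (⟨s.1, i⟩ : Σ j, B j) c ∈ K := h.single hy _
      have h3 : Pi.single s c ∈ K := by
        have h4 := h.swap _ h2 ⟨s.1, i⟩ s rfl
        convert h4 using 1
        ext k
        by_cases hk : k = s
        · subst hk
          simp
        · rw [Pi.single_eq_of_ne hk]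
          by_cases hk2 : k = ⟨s.1, i⟩
          · rw [hk2, Equiv.swap_apply_left, Pi.single_eq_of_ne]
            rintro hcon
            exact hk (hk2.trans hcon.symm)
          · rw [Equiv.swap_apply_of_ne_of_ne hk2 hk, Pi.single_eq_of_ne hk2]
      have h5 : Pi.single s (-c) ∈ K := by
        have h6 := h.flip _ h3 s
        convert h6 using 1
        ext k
        by_cases hk : k = s
        · subst hk
          simp
        · rw [Pi.single_eq_of_ne hk, Function.update_of_ne hk, Pi.single_eq_of_ne hk]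
      have hc0 : 0 < |c| := abs_pos.2 hi
      refine ⟨|c|, hc0, fun _ a ha => ?_⟩
      have h7 : (1 + a / c) / 2 ∈ Set.Icc (0 : ℝ) 1 := by
        have h8 : |a / c| ≤ 1 := by
          rw [abs_div, div_le_one hc0]
          exact ha
        rw [abs_le] at h8
        constructor <;> linarith [h8.1, h8.2]
      have h8 := h.conv h3 h5 (a := (1 + a / c) / 2) (b := 1 - (1 + a / c) / 2) h7.1
        (by linarith [h7.2]) (by ring)
      convert h8 using 1
      ext k
      by_cases hk : k = s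
      · subst hk
        simp only [Pi.single_eq_same, Pi.add_apply, Pi.smul_apply, smul_eq_mul]
        have : c ≠ 0 := hi
        field_simp
        ring
      · simp [hk]
  choose c hc0 hc using h1
  set n : ℕ := Fintype.card (Σ j, B j) with hn
  rcases Nat.eq_zero_or_pos n with hn0 | hn0
  · refine ⟨1, one_pos, fun y _ _ => ?_⟩
    have : IsEmpty (Σ j, B j) := Fintype.card_eq_zero_iff.1 hn0
    have h2 : y = 0 := Subsingleton.elim _ _
    rw [h2]
    exact h0
  have hn1 : (0 : ℝ) < n := by exact_mod_cast hn0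
  have hsum : 0 < ∑ s, 1 / c s + 1 := by
    have : 0 ≤ ∑ s, 1 / c s := Finset.sum_nonneg fun s _ => by
      have := hc0 s
      positivity
    linarith
  set c0 : ℝ := 1 / (∑ s, 1 / c s + 1) with hc0def
  have hc00 : 0 < c0 := by positivity
  have hcle : ∀ s, c0 ≤ c s := by
    intro s
    rw [hc0def, div_le_iff₀ hsum]
    have h2 : 1 / c s ≤ ∑ s, 1 / c s := Finset.single_le_sum (f := fun s => 1 / c s)
      (fun s _ => by have := hc0 s; positivity) (Finset.mem_univ s)
    have h3 := hc0 s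
    have h4 : c s * (1 / c s) = 1 := by field_simp
    nlinarith
  refine ⟨c0 / n, by positivity, fun y hy1 hy2 => ?_⟩
  have h2 : y = ∑ s, (1 / (n : ℝ)) • (Pi.single s ((n : ℝ) * y s) : (Σ j, B j) → ℝ) := by
    ext k
    simp only [Finset.sum_apply, Pi.smul_apply, Pi.single_apply, smul_eq_mul, mul_ite, mul_zero,
      Finset.sum_ite_eq, Finset.mem_univ, if_true]
    field_simp
  rw [h2]
  refine h.conv.sum_mem (fun _ _ => by positivity) ?_ fun s _ => ?_
  · rw [Finset.sum_const, Finset.card_univ, nsmul_eq_mul]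
    rw [← hn]
    field_simp
  · by_cases hs : s.1 ∈ Z
    · rw [hy2 s hs, mul_zero, Pi.single_zero]
      exact h0
    · refine hc s hs _ ?_
      rw [abs_mul, abs_of_pos hn1]
      have h3 := hy1 s
      rw [le_div_iff₀ hn1] at h3
      linarith [hcle s]

/-- A convex body in `E × ℝ` whose sections are invariant. -/
structure FBody (K : Set (((Σ j, B j) → ℝ) × ℝ)) : Prop where
  conv : Convex ℝ K
  comp : IsCompact K
  int : (interior K).Nonempty
  flip : ∀ y t, (y, t) ∈ K → ∀ i, (Function.update y i (-y i), t) ∈ K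
  swap : ∀ y t, (y, t) ∈ K → ∀ s s' : (Σ j, B j), s.1 = s'.1 →
    ((fun k => y (Equiv.swap s s' k)), t) ∈ K

/-- sections -/
def Sec (K : Set (((Σ j, B j) → ℝ) × ℝ)) (t : ℝ) : Set ((Σ j, B j) → ℝ) := {y | (y, t) ∈ K}

variable {K : Set (((Σ j, B j) → ℝ) × ℝ)}

theorem FBody.sset (h : FBody K) (t : ℝ) : SSet (Sec K t) := by
  refine ⟨?_, fun x hx i => h.flip x t hx i, fun x hx s s' hs => h.swap x t hx s s' hs⟩
  intro x hx y hy a b ha hb hab
  have h1 := h.conv hx hy ha hb hab
  have h2 : a • ((x, t) : ((Σ j, B j) → ℝ) × ℝ) + b • (y, t) = (a • x + b • y, t) := by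
    ext
    · simp
    · simp only [Prod.snd_add, Prod.smul_snd, smul_eq_mul]
      rw [← add_mul, hab, one_mul]
  rw [h2] at h1
  exact h1

theorem FBody.neg (h : FBody K) {y : (Σ j, B j) → ℝ} {t : ℝ} (hy : (y, t) ∈ K) :
    (-y, t) ∈ K := neg_of_flip (K := Sec K t) (h.sset t).flip y hy

theorem FBody.axis (h : FBody K) {y : (Σ j, B j) → ℝ} {t : ℝ} (hy : (y, t) ∈ K) :
    ((0 : (Σ j, B j) → ℝ), t) ∈ K := by
  have h1 := (h.sset t).conv hy (h.neg hy) (a := 1 / 2) (b := 1 / 2) (by norm_num) (by norm_num)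
    (by norm_num)
  have h2 : (1 / 2 : ℝ) • y + (1 / 2 : ℝ) • (-y) = 0 := by
    rw [smul_neg, add_neg_cancel]
  rw [h2] at h1
  exact h1

theorem FBody.axis_int (h : FBody K) : ∃ t : ℝ, ((0 : (Σ j, B j) → ℝ), t) ∈ interior K := by
  obtain ⟨⟨y, t⟩, hy⟩ := h.int
  refine ⟨t, ?_⟩
  rw [mem_interior_iff_mem_nhds, Metric.mem_nhds_iff] at hy ⊢
  obtain ⟨ε, hε, hball⟩ := hy
  refine ⟨ε, hε, ?_⟩
  rintro ⟨v, τ⟩ hv
  have hv' : ‖v‖ < ε ∧ |τ - t| < ε := by
    rw [Metric.mem_ball, Prod.dist_eq, max_lt_iff] at hv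
    simpa [dist_eq_norm] using hv
  have h1 : (y + v, τ) ∈ K := by
    apply hball
    rw [Metric.mem_ball, Prod.dist_eq, max_lt_iff]
    simpa [dist_eq_norm] using hv'
  have h2 : (y - v, τ) ∈ K := by
    apply hball
    rw [Metric.mem_ball, Prod.dist_eq, max_lt_iff]
    simpa [dist_eq_norm] using hv'
  have h3 := h.neg h2
  have h4 := (h.sset τ).conv h1 h3 (a := 1 / 2) (b := 1 / 2) (by norm_num) (by norm_num)
    (by norm_num)
  have h5 : (1 / 2 : ℝ) • (y + v) + (1 / 2 : ℝ) • (-(y - v)) = v := by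
    module
  rw [h5] at h4
  exact h4

theorem FBody.ends (h : FBody K) : ∃ t0 t1 : ℝ, t0 < t1 ∧
    ((0 : (Σ j, B j) → ℝ), t0) ∈ K ∧ ((0 : (Σ j, B j) → ℝ), t1) ∈ K ∧
    (∀ x ∈ K, t0 ≤ x.2 ∧ x.2 ≤ t1) ∧
    ∀ t, t0 < t → t < t1 → ((0 : (Σ j, B j) → ℝ), t) ∈ interior K := by
  obtain ⟨ts, hts⟩ := h.axis_int
  have hne : K.Nonempty := ⟨_, interior_subset hts⟩
  obtain ⟨x0, hx0, hmin⟩ := h.comp.exists_isMinOn hne continuous_snd.continuousOn
  obtain ⟨x1, hx1, hmax⟩ := h.comp.exists_isMaxOn hne continuous_snd.continuousOn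
  have hmin' : ∀ x ∈ K, x0.2 ≤ x.2 := fun x hx => hmin hx
  have hmax' : ∀ x ∈ K, x.2 ≤ x1.2 := fun x hx => hmax hx
  have hA0 : ((0 : (Σ j, B j) → ℝ), x0.2) ∈ K := h.axis (y := x0.1) hx0
  have hA1 : ((0 : (Σ j, B j) → ℝ), x1.2) ∈ K := h.axis (y := x1.1) hx1
  have hlt : x0.2 < ts ∧ ts < x1.2 := by
    rw [mem_interior_iff_mem_nhds, Metric.mem_nhds_iff] at hts
    obtain ⟨ε, hε, hball⟩ := hts
    constructor
    · have h1 : ((0 : (Σ j, B j) → ℝ), ts - ε / 2) ∈ K := by
        apply hball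
        rw [Metric.mem_ball, Prod.dist_eq, max_lt_iff]
        simp [dist_eq_norm, abs_of_pos hε, hε]
      have := hmin' _ h1
      simp only at this
      linarith
    · have h1 : ((0 : (Σ j, B j) → ℝ), ts + ε / 2) ∈ K := by
        apply hball
        rw [Metric.mem_ball, Prod.dist_eq, max_lt_iff]
        simp [dist_eq_norm, abs_of_pos hε, hε]
      have := hmax' _ h1
      simp only at this
      linarith
  have hcomb : ∀ τ t : ℝ, ((0 : (Σ j, B j) → ℝ), τ) ∈ K → ∀ b : ℝ, 0 < b → b ≤ 1 →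
      t = (1 - b) * τ + b * ts → ((0 : (Σ j, B j) → ℝ), t) ∈ interior K := by
    intro τ t hτ b hb hb1 ht
    have h1 := h.conv.combo_self_interior_mem_interior hτ hts (a := 1 - b) (b := b)
      (by linarith) hb (by ring)
    have h2 : (1 - b) • (((0 : (Σ j, B j) → ℝ), τ) : ((Σ j, B j) → ℝ) × ℝ) + b • (0, ts) =
        (0, t) := by
      ext
      · simp
      · simp [ht]
    rwa [h2] at h1
  refine ⟨x0.2, x1.2, hlt.1.trans hlt.2, hA0, hA1, fun x hx => ⟨hmin' x hx, hmax' x hx⟩, ?_⟩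
  intro t h0 h1
  rcases le_or_gt t ts with hle | hgt
  · refine hcomb _ t hA0 ((t - x0.2) / (ts - x0.2)) (div_pos (by linarith) (by linarith)) ?_ ?_
    · rw [div_le_one (by linarith)]
      linarith
    · have : ts - x0.2 ≠ 0 := by linarith [hlt.1]
      field_simp
      ring
  · refine hcomb _ t hA1 ((x1.2 - t) / (x1.2 - ts)) (div_pos (by linarith) (by linarith)) ?_ ?_
    · rw [div_le_one (by linarith)]
      linarith
    · have : x1.2 - ts ≠ 0 := by linarith [hlt.2]
      field_simp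
      ring

/-- a box in the section -/
def Good (K : Set (((Σ j, B j) → ℝ) × ℝ)) (t : ℝ) : Prop :=
  ∃ ρ : ℝ, 0 < ρ ∧ ∀ y : (Σ j, B j) → ℝ, (∀ i, |y i| ≤ ρ) → (y, t) ∈ K

theorem good_of_int {t : ℝ} (ht : ((0 : (Σ j, B j) → ℝ), t) ∈ interior K) : Good K t := by
  rw [mem_interior_iff_mem_nhds, Metric.mem_nhds_iff] at ht
  obtain ⟨ε, hε, hball⟩ := ht
  refine ⟨ε / 2, by positivity, fun y hy => hball ?_⟩
  rw [Metric.mem_ball, Prod.dist_eq, max_lt_iff]
  have h1 : ‖y‖ ≤ ε / 2 := (pi_norm_le_iff_of_nonneg (by positivity)).2 fun i => by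
    rw [Real.norm_eq_abs]
    exact hy i
  simp only [dist_zero_right, dist_self]
  exact ⟨by linarith, hε⟩

theorem lift {y w : (Σ j, B j) → ℝ} {t σ lam : ℝ} (hK : Convex ℝ K) (hy : (y, t) ∈ K)
    (hσ : ((0 : (Σ j, B j) → ℝ), t + σ) ∈ interior K) (hlam : 0 < lam)
    (hcn : Cn (Sec K t) y (w + lam • y)) : Co K (y, t) (w, lam * σ) := by
  have h1 : Cn K (y, t) (w + lam • y, 0) := by
    obtain ⟨ε, hε, h2⟩ := hcn
    refine ⟨ε, hε, ?_⟩
    have h3 : (y, t) + ε • ((w + lam • y, (0 : ℝ)) : ((Σ j, B j) → ℝ) × ℝ) =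
        (y + ε • (w + lam • y), t) := by
      ext
      · simp
      · simp
    rw [h3]
    exact h2
  have h2 := (Co.of hK (h1.smul hy (c := 1 / lam) (by positivity)) hσ).smul hlam
  have h3 : lam • ((1 / lam) • ((w + lam • y, (0 : ℝ)) : ((Σ j, B j) → ℝ) × ℝ) +
      ((0, t + σ) - (y, t))) = (w, lam * σ) := by
    rw [smul_add, smul_smul, mul_one_div_cancel hlam.ne', one_smul]
    ext
    · simp
    · simp
  rwa [h3] at h2

theorem FBody.bound (h : FBody K) : ∃ R : ℝ, 0 < R ∧ ∀ y t, (y, t) ∈ K → ∀ i, |y i| ≤ R := by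
  obtain ⟨R, hR⟩ := h.comp.isBounded.exists_norm_le
  refine ⟨|R| + 1, by positivity, fun y t hy i => ?_⟩
  have h1 := (norm_le_pi_norm y i).trans ((norm_fst_le ((y, t) : ((Σ j, B j) → ℝ) × ℝ)).trans
    (hR _ hy))
  rw [Real.norm_eq_abs] at h1
  linarith [le_abs_self R]

theorem FBody.mid [∀ j, Nonempty (B j)] (h : FBody K)
    (hkraft : ∑ j, (1 / (2 : ℝ) ^ Fintype.card (B j)) ≤ 1) {a b σ : ℝ} (hab : a ≤ b)
    (ha : Good K a) (hb : Good K b)
    (hσ : ∀ t, a ≤ t → t ≤ b → ((0 : (Σ j, B j) → ℝ), t + σ) ∈ interior K) :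
    ∃ W : Finset (((Σ j, B j) → ℝ) × ℝ), W.card ≤ 2 ^ Fintype.card (Σ j, B j) ∧
      ∀ x ∈ K, a ≤ x.2 → x.2 ≤ b → ∃ w ∈ W, Co K x w := by
  classical
  obtain ⟨R, hR0, hR⟩ := h.bound
  obtain ⟨ρ1, hρ1, h1⟩ := ha
  obtain ⟨ρ2, hρ2, h2⟩ := hb
  set ρ : ℝ := min ρ1 ρ2 with hρ
  have hρ0 : 0 < ρ := lt_min hρ1 hρ2
  have hbox : ∀ t, a ≤ t → t ≤ b → ∀ y : (Σ j, B j) → ℝ, (∀ i, |y i| ≤ ρ) → y ∈ Sec K t := by
    intro t hat htb y hy
    have h3 := h1 y fun i => (hy i).trans (min_le_left _ _)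
    have h4 := h2 y fun i => (hy i).trans (min_le_right _ _)
    have h5 : Convex ℝ {τ : ℝ | (y, τ) ∈ K} := by
      intro τ hτ τ' hτ' c d hc hd hcd
      have h6 := h.conv hτ hτ' hc hd hcd
      have h7 : c • ((y, τ) : ((Σ j, B j) → ℝ) × ℝ) + d • (y, τ') = (y, c • τ + d • τ') := by
        ext
        · simp only [Prod.fst_add, Prod.smul_fst, Pi.add_apply, Pi.smul_apply, smul_eq_mul]
          rw [← add_mul, hcd, one_mul]
        · simp
      rw [h7] at h6
      exact h6
    exact h5.ordConnected.out h3 h4 ⟨hat, htb⟩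
  obtain ⟨w, lam0, hlam0, _, hw⟩ := universal (B := B) hkraft ∅ ∅ (Finset.Subset.refl _) hR0 hρ0
  refine ⟨Finset.univ.image (fun ε => (w ε, lam0 * σ)), ?_, ?_⟩
  · refine Finset.card_image_le.trans (le_of_eq ?_)
    rw [Finset.card_univ, Fintype.card_pi]
    simp only [Fintype.card_fun, Fintype.card_bool]
    rw [Finset.prod_pow_eq_pow_sum, ← Fintype.card_sigma]
  · rintro ⟨y, t⟩ hx hat htb
    obtain ⟨ε, hε⟩ := hw (Sec K t) (h.sset t) (fun z hz i => hR z t hz i)
      (fun z _ i hi => absurd hi (Finset.notMem_empty _))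
      (fun z hz _ => hbox t hat htb z hz) y hx
    exact ⟨_, Finset.mem_image_of_mem _ (Finset.mem_univ ε),
      lift h.conv hx (hσ t hat htb) hlam0 (hε lam0 hlam0.le le_rfl)⟩

theorem FBody.cap [∀ j, Nonempty (B j)] (h : FBody K)
    (hkraft : ∑ j, (1 / (2 : ℝ) ^ Fintype.card (B j)) ≤ 1) {τ σ : ℝ}
    (h0 : ((0 : (Σ j, B j) → ℝ), τ) ∈ K) (hbad : ¬ Good K τ)
    (hσ : ((0 : (Σ j, B j) → ℝ), τ + σ) ∈ interior K) :
    ∃ W : Finset (((Σ j, B j) → ℝ) × ℝ), 2 * W.card ≤ 2 ^ Fintype.card (Σ j, B j) ∧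
      ∃ η : ℝ, 0 < η ∧ ∀ x ∈ K, |x.2 - τ| < η → ∃ w ∈ W, Co K x w := by
  classical
  obtain ⟨R, hR0, hR⟩ := h.bound
  set Z : Finset (Fin r) := Finset.univ.filter (fun j => ∀ y ∈ Sec K τ, ∀ i : B j,
    y ⟨j, i⟩ = 0) with hZ
  obtain ⟨ρ, hρ0, hρ⟩ := (h.sset τ).box h0 Z (by
    intro j hj
    simp only [hZ, Finset.mem_filter, Finset.mem_univ, true_and] at hj
    push Not at hj
    exact hj)
  obtain ⟨j0, hj0⟩ : Z.Nonempty := by
    by_contra hcon
    rw [Finset.not_nonempty_iff_eq_empty] at hcon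
    refine hbad ⟨ρ, hρ0, fun y hy => hρ y hy fun i hi => ?_⟩
    rw [hcon] at hi
    exact absurd hi (Finset.notMem_empty _)
  obtain ⟨w, lam0, hlam0, hwc, hw⟩ := universal (B := B) hkraft Z {j0}
    (Finset.singleton_subset_iff.2 hj0) hR0 hρ0
  set A : Finset (∀ j, B j → Bool) := Finset.univ.filter (fun ε => ε j0 = fun _ => true) with hA
  set A' : Finset (∀ j, B j → Bool) :=
    Finset.univ.filter (fun ε => ε j0 = fun _ => false) with hA'
  set W : Finset (((Σ j, B j) → ℝ) × ℝ) := A.image (fun ε => (w ε, lam0 * σ)) with hW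
  have hcard : 2 * W.card ≤ 2 ^ Fintype.card (Σ j, B j) := by
    have h1 : W.card ≤ A.card := Finset.card_image_le
    have h2 : A.card ≤ A'.card := by
      refine Finset.card_le_card_of_injOn (fun ε => Function.update ε j0 (fun _ => false))
        (fun ε _ => by simp [hA']) ?_
      intro ε hε ε' hε' heq
      simp only [hA, Finset.coe_filter, Finset.mem_univ, true_and, Set.mem_setOf_eq] at hε hε'
      funext j
      by_cases hj : j = j0
      · subst hj
        rw [hε, hε']
      · have := congrFun heq j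
        simpa [Function.update_of_ne hj] using this
    have h3 : Disjoint A A' := by
      rw [Finset.disjoint_left]
      intro ε h1 h2
      simp only [hA, hA', Finset.mem_filter, Finset.mem_univ, true_and] at h1 h2
      obtain ⟨i⟩ : Nonempty (B j0) := inferInstance
      have := congrFun (h1.symm.trans h2) i
      simp at this
    have h4 : (A ∪ A').card ≤ 2 ^ Fintype.card (Σ j, B j) := by
      refine (Finset.card_le_univ _).trans (le_of_eq ?_)
      rw [Fintype.card_pi]
      simp only [Fintype.card_fun, Fintype.card_bool]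
      rw [Finset.prod_pow_eq_pow_sum, ← Fintype.card_sigma]
    rw [Finset.card_union_of_disjoint h3] at h4
    omega
  have hface : ∀ y, (y, τ) ∈ K → ∃ w ∈ W, Co K (y, τ) w := by
    intro y hy
    obtain ⟨ε, hε⟩ := hw (Sec K τ) (h.sset τ) (fun z hz i => hR z τ hz i)
      (fun z hz i hi => by
        simp only [hZ, Finset.mem_filter, Finset.mem_univ, true_and] at hi
        exact hi z hz i.2) (fun z hz hz' => hρ z hz hz') y hy
    refine ⟨(w (Function.update ε j0 (fun _ => true)), lam0 * σ),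
      Finset.mem_image_of_mem _ (by simp [hA]), ?_⟩
    rw [hwc (Function.update ε j0 (fun _ => true)) ε fun j hj =>
      Function.update_of_ne (fun h => hj (by rw [h]; exact Finset.mem_singleton_self j0)) _ _]
    exact lift h.conv hy hσ hlam0 (hε lam0 hlam0.le le_rfl)
  refine ⟨W, hcard, ?_⟩
  set V : Set (((Σ j, B j) → ℝ) × ℝ) := {x | ∃ w ∈ W, ∃ ε : ℝ, 0 < ε ∧ x + ε • w ∈ interior K}
    with hV
  have hVo : IsOpen V := by
    have : V = ⋃ w ∈ W, ⋃ ε : ℝ, ⋃ _ : 0 < ε, {x | x + ε • w ∈ interior K} := by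
      ext x
      simp only [hV, Set.mem_setOf_eq, mem_iUnion, exists_prop]
    rw [this]
    refine isOpen_biUnion fun w _ => isOpen_iUnion fun ε => isOpen_iUnion fun _ => ?_
    exact isOpen_interior.preimage (continuous_id.add continuous_const)
  have hC : IsCompact (K \ V) := h.comp.diff hVo
  rcases (K \ V).eq_empty_or_nonempty with he | hne
  · refine ⟨1, one_pos, fun x hx _ => ?_⟩
    by_contra hcon
    have : x ∈ K \ V := ⟨hx, hcon⟩
    rw [he] at this
    exact absurd this (notMem_empty x)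
  · obtain ⟨x0, hx0, hmin⟩ := hC.exists_isMinOn hne
      (f := fun x : ((Σ j, B j) → ℝ) × ℝ => |x.2 - τ|) (by fun_prop)
    have hmin' : ∀ x ∈ K \ V, |x0.2 - τ| ≤ |x.2 - τ| := fun x hx => hmin hx
    refine ⟨|x0.2 - τ|, ?_, fun x hx hlt => ?_⟩
    · rw [abs_pos, sub_ne_zero]
      intro hcon
      refine hx0.2 ?_
      have h1 := hface x0.1 (by rw [← hcon]; exact hx0.1)
      rw [← hcon] at h1
      exact h1
    · by_contra hcon
      have := hmin' x ⟨hx, hcon⟩
      linarith

theorem FBody.illuminate [∀ j, Nonempty (B j)] (h : FBody K)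
    (hkraft : ∑ j, (1 / (2 : ℝ) ^ Fintype.card (B j)) ≤ 1) :
    ∃ W : Finset (((Σ j, B j) → ℝ) × ℝ), W.card ≤ 2 ^ (Fintype.card (Σ j, B j) + 1) ∧
      ∀ x ∈ K, ∃ w ∈ W, Co K x w := by
  classical
  obtain ⟨t0, t1, h01, hK0, hK1, hK, hint⟩ := h.ends
  have hpow : 2 ^ (Fintype.card (Σ j, B j) + 1) = 2 * 2 ^ Fintype.card (Σ j, B j) := by
    rw [pow_succ, mul_comm]
  by_cases hg0 : Good K t0
  · by_cases hg1 : Good K t1
    · -- no degenerate end
      set tm : ℝ := (t0 + t1) / 2 with htm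
      obtain ⟨W1, hW1, h1⟩ := h.mid hkraft (a := t0) (b := tm) (σ := (t1 - t0) / 4)
        (by linarith) hg0 (good_of_int (hint tm (by linarith) (by linarith)))
        (fun t ha hb => hint _ (by linarith) (by linarith))
      obtain ⟨W2, hW2, h2⟩ := h.mid hkraft (a := tm) (b := t1) (σ := -(t1 - t0) / 4)
        (by linarith) (good_of_int (hint tm (by linarith) (by linarith))) hg1
        (fun t ha hb => hint _ (by linarith) (by linarith))
      refine ⟨W1 ∪ W2, (Finset.card_union_le _ _).trans (by omega), fun x hx => ?_⟩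
      rcases le_total x.2 tm with hle | hle
      · obtain ⟨w, hw, hc⟩ := h1 x hx (hK x hx).1 hle
        exact ⟨w, Finset.mem_union_left _ hw, hc⟩
      · obtain ⟨w, hw, hc⟩ := h2 x hx hle (hK x hx).2
        exact ⟨w, Finset.mem_union_right _ hw, hc⟩
    · -- the upper end is degenerate
      obtain ⟨W2, hW2, η, hη, h2⟩ := h.cap hkraft (τ := t1) (σ := -(t1 - t0) / 2) hK1 hg1
        (hint _ (by linarith) (by linarith))
      set η' : ℝ := min η (t1 - t0) / 2 with hη'
      have hη0 : 0 < η' := by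
        have : 0 < min η (t1 - t0) := lt_min hη (by linarith)
        positivity
      have hη1 : η' < η := by
        have := min_le_left η (t1 - t0)
        linarith
      have hη2 : η' ≤ (t1 - t0) / 2 := by
        have := min_le_right η (t1 - t0)
        linarith
      obtain ⟨W1, hW1, h1⟩ := h.mid hkraft (a := t0) (b := t1 - η') (σ := η' / 2)
        (by linarith) hg0 (good_of_int (hint _ (by linarith) (by linarith)))
        (fun t ha hb => hint _ (by linarith) (by linarith))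
      refine ⟨W1 ∪ W2, (Finset.card_union_le _ _).trans (by omega), fun x hx => ?_⟩
      rcases le_or_gt x.2 (t1 - η') with hle | hle
      · obtain ⟨w, hw, hc⟩ := h1 x hx (hK x hx).1 hle
        exact ⟨w, Finset.mem_union_left _ hw, hc⟩
      · obtain ⟨w, hw, hc⟩ := h2 x hx (by
          have := (hK x hx).2
          rw [abs_lt]
          constructor <;> linarith)
        exact ⟨w, Finset.mem_union_right _ hw, hc⟩
  · obtain ⟨W2, hW2, η, hη, h2⟩ := h.cap hkraft (τ := t0) (σ := (t1 - t0) / 2) hK0 hg0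
      (hint _ (by linarith) (by linarith))
    by_cases hg1 : Good K t1
    · set η' : ℝ := min η (t1 - t0) / 2 with hη'
      have hη0 : 0 < η' := by
        have : 0 < min η (t1 - t0) := lt_min hη (by linarith)
        positivity
      have hη1 : η' < η := by
        have := min_le_left η (t1 - t0)
        linarith
      have hη2 : η' ≤ (t1 - t0) / 2 := by
        have := min_le_right η (t1 - t0)
        linarith
      obtain ⟨W1, hW1, h1⟩ := h.mid hkraft (a := t0 + η') (b := t1) (σ := -η' / 2)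
        (by linarith) (good_of_int (hint _ (by linarith) (by linarith))) hg1
        (fun t ha hb => hint _ (by linarith) (by linarith))
      refine ⟨W1 ∪ W2, (Finset.card_union_le _ _).trans (by omega), fun x hx => ?_⟩
      rcases le_or_gt (t0 + η') x.2 with hle | hle
      · obtain ⟨w, hw, hc⟩ := h1 x hx hle (hK x hx).2
        exact ⟨w, Finset.mem_union_left _ hw, hc⟩
      · obtain ⟨w, hw, hc⟩ := h2 x hx (by
          have := (hK x hx).1
          rw [abs_lt]
          constructor <;> linarith)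
        exact ⟨w, Finset.mem_union_right _ hw, hc⟩
    · obtain ⟨W3, hW3, ζ, hζ, h3⟩ := h.cap hkraft (τ := t1) (σ := -(t1 - t0) / 2) hK1 hg1
        (hint _ (by linarith) (by linarith))
      set η' : ℝ := min (min η ζ) (t1 - t0) / 4 with hη'
      have hη0 : 0 < η' := by
        have : 0 < min (min η ζ) (t1 - t0) := lt_min (lt_min hη hζ) (by linarith)
        positivity
      have hη1 : η' < η := by
        have := (min_le_left (min η ζ) (t1 - t0)).trans (min_le_left _ _)
        linarith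
      have hη3 : η' < ζ := by
        have := (min_le_left (min η ζ) (t1 - t0)).trans (min_le_right _ _)
        linarith
      have hη2 : η' ≤ (t1 - t0) / 4 := by
        have := min_le_right (min η ζ) (t1 - t0)
        linarith
      obtain ⟨W1, hW1, h1⟩ := h.mid hkraft (a := t0 + η') (b := t1 - η') (σ := η' / 2)
        (by linarith) (good_of_int (hint _ (by linarith) (by linarith)))
        (good_of_int (hint _ (by linarith) (by linarith)))
        (fun t ha hb => hint _ (by linarith) (by linarith))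
      refine ⟨W1 ∪ (W2 ∪ W3), (Finset.card_union_le _ _).trans ?_, fun x hx => ?_⟩
      · have := Finset.card_union_le W2 W3
        omega
      rcases le_or_gt (t0 + η') x.2 with hle | hle
      · rcases le_or_gt x.2 (t1 - η') with hle2 | hle2
        · obtain ⟨w, hw, hc⟩ := h1 x hx hle hle2
          exact ⟨w, Finset.mem_union_left _ hw, hc⟩
        · obtain ⟨w, hw, hc⟩ := h3 x hx (by
            have := (hK x hx).2
            rw [abs_lt]
            constructor <;> linarith)
          exact ⟨w, Finset.mem_union_right _ (Finset.mem_union_right _ hw), hc⟩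
      · obtain ⟨w, hw, hc⟩ := h2 x hx (by
          have := (hK x hx).1
          rw [abs_lt]
          constructor <;> linarith)
        exact ⟨w, Finset.mem_union_right _ (Finset.mem_union_left _ hw), hc⟩

/-- The covering. -/
theorem FBody.cover [∀ j, Nonempty (B j)] (h : FBody K)
    (hkraft : ∑ j, (1 / (2 : ℝ) ^ Fintype.card (B j)) ≤ 1) :
    ∃ T : Finset (((Σ j, B j) → ℝ) × ℝ), T.card ≤ 2 ^ (Fintype.card (Σ j, B j) + 1) ∧
      ∀ x ∈ K, ∃ v ∈ T, x - v ∈ interior K := by
  classical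
  obtain ⟨W, hW, h1⟩ := h.illuminate hkraft
  obtain ⟨ρ, hρ, h2⟩ := unif h.conv h.comp subset_rfl (fun w : {w // w ∈ W} => (w : _ × ℝ))
    (fun x hx => by
      obtain ⟨w, hw, hc⟩ := h1 x hx
      exact ⟨⟨w, hw⟩, hc⟩)
  refine ⟨W.image (fun w => -(ρ • w)), Finset.card_image_le.trans hW, fun x hx => ?_⟩
  obtain ⟨w, hw⟩ := h2 x hx
  refine ⟨-(ρ • (w : _ × ℝ)), Finset.mem_image_of_mem _ w.2, ?_⟩
  rw [sub_neg_eq_add]
  exact hw

end Pool.Agent.H843R3.Had3
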