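import Mathlib
import Pool.Agent.H843R3.Had3.Free

set_option autoImplicit false
set_option maxHeartbeats 1000000

open Set Topology

namespace Pool.Agent.H843R3.Had3

/-- The covering theorem, with one coordinate without any symmetry. -/
theorem cover_free (d r : ℕ) (hd : 1 ≤ d) (K : Set (EuclideanSpace ℝ (Fin (d + 1))))
    (hK : Convex ℝ K) (hKc : IsCompact K) (hKi : (interior K).Nonempty)
    (v : Module.Basis (Fin (d + 1)) ℝ (EuclideanSpace ℝ (Fin (d + 1)))) (b : Fin d → Fin r)
    (hblocks : ∑ j, (1 / 2 : ℝ) ^ (Finset.univ.filter (fun i => b i = j)).card ≤ 1)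
    (hsign : ∀ i : Fin d, ∀ x ∈ K, x - (2 * v.repr x i.castSucc) • v i.castSucc ∈ K)
    (hperm : ∀ i l : Fin d, b i = b l → ∀ x ∈ K,
      ∑ k, v.repr x k • v (Equiv.swap i.castSucc l.castSucc k) ∈ K) :
    ∃ T : Finset (EuclideanSpace ℝ (Fin (d + 1))), T.card ≤ 2 ^ (d + 1) ∧
      K ⊆ ⋃ t ∈ T, (fun x => t + x) '' interior K := by
  -- the blocks are nonempty
  have hfib : ∀ j, 0 < (Finset.univ.filter (fun i => b i = j)).card := by
    intro j
    by_contra hcon
    have h0 : (Finset.univ.filter (fun i => b i = j)).card = 0 := by omega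
    set j' : Fin r := b ⟨0, hd⟩ with hj'
    have hne : j ≠ j' := by
      rintro h
      have h1 : (⟨0, hd⟩ : Fin d) ∈ Finset.univ.filter (fun i => b i = j) := by
        simp [h, hj']
      rw [Finset.card_eq_zero.1 h0] at h1
      exact absurd h1 (Finset.notMem_empty _)
    have h2 : ∑ k ∈ ({j, j'} : Finset (Fin r)),
        (1 / 2 : ℝ) ^ (Finset.univ.filter (fun i => b i = k)).card ≤
        ∑ k, (1 / 2 : ℝ) ^ (Finset.univ.filter (fun i => b i = k)).card :=
      Finset.sum_le_sum_of_subset_of_nonneg (Finset.subset_univ _) fun _ _ _ => by positivity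
    rw [Finset.sum_pair hne, h0, pow_zero] at h2
    have h3 : (0 : ℝ) < (1 / 2 : ℝ) ^ (Finset.univ.filter (fun i => b i = j')).card := by
      positivity
    linarith
  have hNe : ∀ j, Nonempty {i : Fin d // b i = j} := by
    intro j
    obtain ⟨i, hi⟩ := Finset.card_pos.1 (hfib j)
    exact ⟨⟨i, by simpa using hi⟩⟩
  set e : (Σ j, {i : Fin d // b i = j}) ≃ Fin d := Equiv.sigmaFiberEquiv b with he
  have hbe : ∀ s : (Σ j, {i : Fin d // b i = j}), b (e s) = s.1 := fun s => s.2.2
  have hcardS : Fintype.card (Σ j, {i : Fin d // b i = j}) = d := by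
    rw [Fintype.card_congr e, Fintype.card_fin]
  let L : EuclideanSpace ℝ (Fin (d + 1)) →ₗ[ℝ] ((Σ j, {i : Fin d // b i = j}) → ℝ) × ℝ :=
    { toFun := fun x => (fun s => v.repr x (e s).castSucc, v.repr x (Fin.last d))
      map_add' := by
        intro x y
        ext
        · simp
        · simp
      map_smul' := by
        intro c x
        ext
        · simp
        · simp }
  have hLx : ∀ x, L x = (fun s => v.repr x (e s).castSucc, v.repr x (Fin.last d)) := fun _ => rfl
  have hinj : Function.Injective L := by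
    intro x y hxy
    rw [hLx, hLx, Prod.mk.injEq] at hxy
    refine v.repr.injective (Finsupp.ext fun k => ?_)
    refine Fin.lastCases ?_ (fun i => ?_) k
    · exact hxy.2
    · have := congrFun hxy.1 (e.symm i)
      simpa using this
  have hfin : Module.finrank ℝ (EuclideanSpace ℝ (Fin (d + 1))) =
      Module.finrank ℝ (((Σ j, {i : Fin d // b i = j}) → ℝ) × ℝ) := by
    rw [Module.finrank_prod, Module.finrank_fintype_fun_eq_card, Module.finrank_self, hcardS,
      finrank_euclideanSpace_fin]
  set Ψ : EuclideanSpace ℝ (Fin (d + 1)) ≃L[ℝ] ((Σ j, {i : Fin d // b i = j}) → ℝ) × ℝ :=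
    (L.linearEquivOfInjective hinj hfin).toContinuousLinearEquiv with hΨ
  have hΨx : ∀ x, Ψ x = (fun s => v.repr x (e s).castSucc, v.repr x (Fin.last d)) :=
    fun _ => rfl
  have hpre : Ψ.symm ⁻¹' K = Ψ.symm.toHomeomorph ⁻¹' K := rfl
  have hflipr : ∀ (x : EuclideanSpace ℝ (Fin (d + 1))) (i k : Fin (d + 1)),
      v.repr (x - (2 * v.repr x i) • v i) k = if k = i then -v.repr x i else v.repr x k := by
    intro x i k
    rw [map_sub, map_smul, v.repr_self, Finsupp.sub_apply, Finsupp.smul_apply, smul_eq_mul]
    by_cases h : k = i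
    · subst h
      rw [Finsupp.single_eq_same, if_pos rfl]
      ring
    · rw [Finsupp.single_eq_of_ne h, if_neg h, mul_zero, sub_zero]
  have hswapr : ∀ (x : EuclideanSpace ℝ (Fin (d + 1))) (i l k : Fin (d + 1)),
      v.repr (∑ m, v.repr x m • v (Equiv.swap i l m)) k = v.repr x (Equiv.swap i l k) := by
    intro x i l k
    rw [← Equiv.sum_comp (Equiv.swap i l), map_sum, Finsupp.finsetSum_apply,
      Finset.sum_eq_single k]
    · simp
    · intro m _ hm
      simp [hm]
    · intro h
      exact absurd (Finset.mem_univ k) h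
  have hbody : FBody (Ψ.symm ⁻¹' K) := by
    refine ⟨?_, ?_, ?_, ?_, ?_⟩
    · exact hK.linear_preimage Ψ.symm.toLinearEquiv.toLinearMap
    · rw [hpre, ← Homeomorph.image_symm]
      exact hKc.image (Homeomorph.continuous _)
    · obtain ⟨y, hy⟩ := hKi
      refine ⟨Ψ y, ?_⟩
      rw [hpre, ← Homeomorph.preimage_interior]
      show Ψ.symm (Ψ y) ∈ interior K
      rwa [ContinuousLinearEquiv.symm_apply_apply]
    · intro y t hyt s
      set x := Ψ.symm (y, t) with hx
      have hxy : Ψ x = (y, t) := Ψ.apply_symm_apply _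
      have hys : ∀ s', y s' = v.repr x (e s').castSucc := fun s' => by
        have := congrArg (fun p => p.1 s') ((hΨx x).symm.trans hxy)
        exact this.symm
      have ht : t = v.repr x (Fin.last d) :=
        (congrArg Prod.snd ((hΨx x).symm.trans hxy)).symm
      have h1 := hsign (e s) x hyt
      have h2 : Ψ (x - (2 * v.repr x (e s).castSucc) • v (e s).castSucc) =
          (Function.update y s (-y s), t) := by
        rw [hΨx]
        ext s'
        · simp only [hflipr]
          by_cases hs : s' = s
          · subst hs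
            rw [if_pos rfl, Function.update_self, hys]
          · rw [Function.update_of_ne hs, if_neg, hys]
            intro hcon
            exact hs (e.injective (Fin.castSucc_injective _ hcon))
        · simp only [hflipr]
          rw [if_neg (Fin.castSucc_lt_last (e s)).ne', ht]
      show Ψ.symm _ ∈ K
      rw [← h2, ContinuousLinearEquiv.symm_apply_apply]
      exact h1
    · intro y t hyt s s' hss
      set x := Ψ.symm (y, t) with hx
      have hxy : Ψ x = (y, t) := Ψ.apply_symm_apply _
      have hys : ∀ s', y s' = v.repr x (e s').castSucc := fun s' => by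
        have := congrArg (fun p => p.1 s') ((hΨx x).symm.trans hxy)
        exact this.symm
      have ht : t = v.repr x (Fin.last d) :=
        (congrArg Prod.snd ((hΨx x).symm.trans hxy)).symm
      have h1 := hperm (e s) (e s') (by rw [hbe, hbe, hss]) x hyt
      have h2 : Ψ (∑ k, v.repr x k • v (Equiv.swap (e s).castSucc (e s').castSucc k)) =
          (fun k => y (Equiv.swap s s' k), t) := by
        rw [hΨx]
        ext k
        · simp only [hswapr]
          rw [hys]
          congr 1
          by_cases h3 : k = s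
          · rw [h3, Equiv.swap_apply_left, Equiv.swap_apply_left]
          · by_cases h4 : k = s'
            · rw [h4, Equiv.swap_apply_right, Equiv.swap_apply_right]
            · rw [Equiv.swap_apply_of_ne_of_ne h3 h4, Equiv.swap_apply_of_ne_of_ne]
              · exact fun h => h3 (e.injective (Fin.castSucc_injective _ h))
              · exact fun h => h4 (e.injective (Fin.castSucc_injective _ h))
        · simp only [hswapr]
          rw [Equiv.swap_apply_of_ne_of_ne (Fin.castSucc_lt_last (e s)).ne'
            (Fin.castSucc_lt_last (e s')).ne', ht]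
      show Ψ.symm _ ∈ K
      rw [← h2, ContinuousLinearEquiv.symm_apply_apply]
      exact h1
  have hkraft : ∑ j, (1 / (2 : ℝ) ^ Fintype.card {i : Fin d // b i = j}) ≤ 1 := by
    refine le_trans (le_of_eq ?_) hblocks
    refine Finset.sum_congr rfl fun j _ => ?_
    rw [Fintype.card_subtype, one_div_pow]
  obtain ⟨T, hT, hw⟩ := hbody.cover hkraft
  rw [hcardS] at hT
  classical
  refine ⟨T.image Ψ.symm, Finset.card_image_le.trans hT, ?_⟩
  intro x hx
  obtain ⟨w, hwT, hw1⟩ := hw (Ψ x) (by
    show Ψ.symm (Ψ x) ∈ K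
    rwa [ContinuousLinearEquiv.symm_apply_apply])
  rw [hpre, ← Homeomorph.preimage_interior] at hw1
  have h4 : Ψ.symm (Ψ x - w) ∈ interior K := hw1
  rw [map_sub, ContinuousLinearEquiv.symm_apply_apply] at h4
  simp only [Set.mem_iUnion]
  refine ⟨Ψ.symm w, Finset.mem_image_of_mem _ hwT, x - Ψ.symm w, h4, ?_⟩
  simp

end Pool.Agent.H843R3.Had3
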