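import Mathlib
import Pool.Agent.H843R3.Had3.Cover
import Pool.Agent.H843R3.Had3.CoverFree

set_option autoImplicit false
set_option maxHeartbeats 1000000

open Set Topology

namespace Pool.Agent.H843R3.Had3

theorem swap_conj {α β : Type*} [DecidableEq α] [DecidableEq β] (e : α → β)
    (he : Function.Injective e) (s t k : α) :
    e (Equiv.swap s t k) = Equiv.swap (e s) (e t) (e k) := by
  by_cases h1 : k = s
  · rw [h1, Equiv.swap_apply_left, Equiv.swap_apply_left]
  · by_cases h2 : k = t
    · rw [h2, Equiv.swap_apply_right, Equiv.swap_apply_right]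
    · rw [Equiv.swap_apply_of_ne_of_ne h1 h2, Equiv.swap_apply_of_ne_of_ne]
      · exact fun h => h1 (he h)
      · exact fun h => h2 (he h)

/-- The covering theorem: blocks, and at most one coordinate without symmetry. -/
theorem cover_all (n r : ℕ) (hn : 2 ≤ n) (K : Set (EuclideanSpace ℝ (Fin n)))
    (hK : Convex ℝ K) (hKc : IsCompact K) (hKi : (interior K).Nonempty)
    (v : Module.Basis (Fin n) ℝ (EuclideanSpace ℝ (Fin n))) (b : Fin n → Option (Fin r))
    (hfree : ∀ i l, b i = none → b l = none → i = l)
    (hblocks : ∑ j, (1 / 2 : ℝ) ^ (Finset.univ.filter (fun i => b i = some j)).card ≤ 1)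
    (hsign : ∀ i, b i ≠ none → ∀ x ∈ K, x - (2 * v.repr x i) • v i ∈ K)
    (hperm : ∀ i l, b i = b l → ∀ x ∈ K, ∑ k, v.repr x k • v (Equiv.swap i l k) ∈ K) :
    ∃ T : Finset (EuclideanSpace ℝ (Fin n)), T.card ≤ 2 ^ n ∧
      K ⊆ ⋃ t ∈ T, (fun x => t + x) '' interior K := by
  classical
  by_cases hex : ∃ i0, b i0 = none
  · obtain ⟨i0, hi0⟩ := hex
    obtain ⟨d, rfl⟩ : ∃ d, n = d + 1 := ⟨n - 1, by omega⟩
    set σ : Equiv.Perm (Fin (d + 1)) := Equiv.swap (Fin.last d) i0 with hσ
    have hσ0 : ∀ i : Fin d, σ i.castSucc ≠ i0 := by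
      intro i hcon
      have h1 : σ (Fin.last d) = i0 := Equiv.swap_apply_left _ _
      exact (Fin.castSucc_lt_last i).ne (σ.injective (hcon.trans h1.symm))
    have hbne : ∀ i : Fin (d + 1), i ≠ i0 → b i ≠ none := fun i hi hcon => hi (hfree i i0 hcon hi0)
    have hget : ∀ i : Fin d, ∃ j, b (σ i.castSucc) = some j := fun i =>
      Option.ne_none_iff_exists'.1 (hbne _ (hσ0 i))
    choose b' hb' using hget
    set v' : Module.Basis (Fin (d + 1)) ℝ (EuclideanSpace ℝ (Fin (d + 1))) :=
      v.reindex σ.symm with hv'
    have hv'i : ∀ k, v' k = v (σ k) := fun k => by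
      rw [hv', Module.Basis.reindex_apply, Equiv.symm_symm]
    have hv'r : ∀ x k, v'.repr x k = v.repr x (σ k) := fun x k => by
      rw [hv', Module.Basis.repr_reindex_apply, Equiv.symm_symm]
    refine cover_free d r (by omega) K hK hKc hKi v' b' ?_ ?_ ?_
    · refine le_trans (le_of_eq ?_) hblocks
      refine Finset.sum_congr rfl fun j _ => ?_
      congr 1
      have hinj : Function.Injective (fun i : Fin d => σ i.castSucc) := fun i l h =>
        Fin.castSucc_injective _ (σ.injective h)
      rw [← Finset.card_map ⟨_, hinj⟩]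
      congr 1
      ext k
      simp only [Finset.mem_map, Finset.mem_filter, Finset.mem_univ, true_and,
        Function.Embedding.coeFn_mk]
      constructor
      · rintro ⟨i, hi, rfl⟩
        rw [hb', hi]
      · intro hk
        have hk0 : k ≠ i0 := by
          rintro rfl
          rw [hi0] at hk
          exact absurd hk (by simp)
        have h1 : σ.symm k ≠ Fin.last d := by
          intro hcon
          apply hk0
          rw [← σ.apply_symm_apply k, hcon]
          exact Equiv.swap_apply_left _ _
        obtain ⟨i, hi⟩ := Fin.exists_castSucc_eq.2 h1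
        refine ⟨i, ?_, ?_⟩
        · have h2 := hb' i
          rw [hi, σ.apply_symm_apply, hk] at h2
          exact (Option.some_injective _ h2).symm
        · rw [hi, σ.apply_symm_apply]
    · intro i x hx
      rw [hv'r, hv'i]
      exact hsign _ (hbne _ (hσ0 i)) x hx
    · intro i l hil x hx
      have h1 := hperm (σ i.castSucc) (σ l.castSucc) (by rw [hb', hb', hil]) x hx
      rw [← Equiv.sum_comp σ] at h1
      convert h1 using 2 with k
      rw [hv'r, hv'i, swap_conj σ σ.injective]
  · push Not at hex
    have hget : ∀ i : Fin n, ∃ j, b i = some j := fun i => Option.ne_none_iff_exists'.1 (hex i)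
    choose b' hb' using hget
    refine cover_blocks n r (by omega) K hK hKc hKi v b' ?_ (fun i => hsign i (hex i)) ?_
    · refine le_trans (le_of_eq ?_) hblocks
      refine Finset.sum_congr rfl fun j _ => ?_
      congr 2
      ext k
      simp only [Finset.mem_filter, Finset.mem_univ, true_and]
      rw [hb']
      exact ⟨fun h => by rw [h], fun h => Option.some_injective _ h⟩
    · intro i l hil
      exact hperm i l (by rw [hb', hb', hil])

end Pool.Agent.H843R3.Had3
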